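import Pool.Agent.Helper53.WR.TowDefs

/-!
# Project FB: definitions

Bases of order two with few representations of every number in most dyadic blocks.
-/

set_option autoImplicit false

namespace Pool.Agent.Helper48.FB

open Finset
open Pool.Agent.Helper53.WR

/-- The part of `A` in the window `[y, y + h)`. -/
def win (A : Finset ℕ) (y h : ℕ) : Finset ℕ := A.filter (fun x => y ≤ x ∧ x < y + h)

/-- The pairs `(x, y) ∈ X × Y` with sum `n`. -/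
def crossF (X Y : Finset ℕ) (n : ℕ) : Finset (ℕ × ℕ) := (X ×ˢ Y).filter (fun z => z.1 + z.2 = n)

/-- An absolute constant. -/
def Cs : ℕ := 2 ^ 64

/-- Every window `[y, y + h)` contains at most `W * (h / sqrt y + 1)` elements (up to rounding). -/
def WinLe (A : Finset ℕ) (W : ℕ) : Prop :=
  ∀ y h : ℕ, (win A y h).card * 2 ^ (Nat.log 2 y / 2) ≤ W * (h + 2 ^ (Nat.log 2 y / 2))

/-- A finite basis `T` for `[0, 2 ^ J)` with a thin subset `T'`; `B` is the set of the exceptional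
dyadic blocks. -/
structure Top (J F f w : ℕ) (T T' B : Finset ℕ) : Prop where
  sub : T' ⊆ T
  lt : ∀ x ∈ T, x < 2 ^ J
  cov : ∀ n, n < 2 ^ J → ∃ x ∈ T, ∃ y ∈ T, x + y = n
  rep : ∀ n, repF T n ≤ F
  rep' : ∀ n, repF T' n ≤ f
  wn : WinLe T (2 ^ w)
  good : ∀ j, j < J → j ∉ B → CovBlock (T' : Set ℕ) j ∧
    ∀ n, 2 ^ j ≤ n → n < 2 ^ (j + 1) → repF T n ≤ f

/-- The bound for the representations of the top set of world `k`. -/
def Fs (u : ℕ → ℕ) (k : ℕ) : ℕ := Cs * (laT u k + 1)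

/-- The bound for the residue classes of the older elements modulo `q k ^ 4`. -/
def Dk (κ : ℕ → ℕ) (k : ℕ) : ℕ := (k + 1) * (8192 * (8 * κ k))

/-- Admissible parameters. -/
structure FTow (a u e t κ w : ℕ → ℕ) : Prop where
  tow : Tow a u e t κ (Fs u)
  u42 : ∀ k, 2 ^ 42 * u k ≤ a k
  cr : ∀ k, 2 ^ 13 * (t k * Dk κ k) ≤ a k
  hw : ∀ k, w k ≤ 20 * e k

/-- The conclusions for one world `A` (with thin part `A'`), older elements `O`. -/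
structure FW (a u e t κ f : ℕ → ℕ) (q : ℕ → ℕ) (B : Finset ℕ) (k : ℕ) (O A A' : Finset ℕ) :
    Prop where
  sub : A' ⊆ A
  rng : ∀ b ∈ A, 2 ^ (4 * a k + thT u e k) ≤ b ∧ b < 2 ^ (4 * a (k + 1) + 8 * u (k + 1))
  self : ∀ n, repF A n ≤ 4096 ^ 2 * 2592 * Fs u k
  self' : ∀ n, repF A' n ≤ 4096 ^ 2 * 2592 * f k
  cov : ∀ n, 2 ^ (4 * a k + thT u e k + 8) ≤ n → n < 2 ^ (4 * a k + laT u k) →
    ∃ x ∈ A, ∃ y ∈ A, x + y = n
  good : ∀ j, 4 * a k + thT u e k + 8 ≤ j → j + 1 ≤ 4 * a k + laT u k →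
    (∀ i, i ≤ 5 → j - 4 * a k - i ∉ B) → CovBlock (A' : Set ℕ) j ∧
      ∀ n, 2 ^ j ≤ n → n < 2 ^ (j + 1) → repF A n ≤ 4096 ^ 2 * 2592 * f k
  res2 : ∀ i, k < i → a i ≤ 3 * a k → ∀ r,
    (A.filter (fun b => b % (q i) ^ 2 = r)).card ≤ 4096 * 2 ^ (4 * u i + 4 * e i)
  res4 : ∀ i, k < i → a i ≤ 3 * a k → ∀ r,
    (A.filter (fun b => b % (q i) ^ 4 = r)).card ≤ 4096 * (8 * κ k)
  cross : ∀ n, (crossF A O n).card ≤ 4096 * (t k * Dk κ k)
  wn : WinLe A (2 ^ (13 * u (k + 1)))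
  mid : ∀ y h, 2 ^ (4 * a k + 4) ≤ h → h ≤ 2 ^ (4 * a k + thT u e k + 13) →
    (win A y h).card ^ 2 * 2 ^ (4 * a k + thT u e k) ≤ 2 ^ 57 * h ^ 2 * Fs u k
  far : ∀ y, 2 ^ (4 * a k + thT u e k + 127 * e k) ≤ y →
    (win A y (2 ^ (4 * a k + thT u e k + 12))).card ≤ 2 ^ (2 * a k + 4 * u k - 10 * e k)

/-- The scale of the filler of the gap below world `k`. -/
def LR (a u e : ℕ → ℕ) (k : ℕ) : ℕ := 4 * a k + thT u e k + 12

/-- The start of the filler of the gap below world `k`. -/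
def zR (a u : ℕ → ℕ) (k : ℕ) : ℕ := 4 * a k + 8 * u k - 24

/-- The conclusions for the filler `R` of the gap below world `k`. -/
structure FR (a u e t κ : ℕ → ℕ) (q : ℕ → ℕ) (k : ℕ) (O W R : Finset ℕ) : Prop where
  rng : ∀ x ∈ R, 2 ^ zR a u k ≤ x ∧ x < 2 ^ LR a u e k
  cov : ∀ n, 2 ^ (zR a u k + 2) ≤ n → n < 2 ^ LR a u e k → ∃ x ∈ R, ∃ y ∈ R, x + y = n
  self : ∀ n, repF R n ≤ 201 * LR a u e k
  crossO : ∀ n, (crossF R O n).card ≤ 2 ^ 52 * a k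
  crossW : ∀ n, (crossF R W n).card ≤ 2 ^ 56 * a k
  crossL : ∀ n, 2 ^ (4 * a k + thT u e k + 128 * e k) ≤ n → (crossF R W n).card ≤ t k
  wn : WinLe R (16 * LR a u e k)
  res2 : ∀ i, k < i → a i ≤ 3 * a k → ∀ r,
    (R.filter (fun b => b % (q i) ^ 2 = r)).card ≤ 1 + 2 ^ (4 * u i + 4 * e i)
  res4 : ∀ i, k < i → a i ≤ 3 * a k → ∀ r,
    (R.filter (fun b => b % (q i) ^ 4 = r)).card ≤ 1 + 8 * κ k

/-- The invariant for the older elements `O` at the start of stage `k`. -/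
structure FI (a u e κ : ℕ → ℕ) (q : ℕ → ℕ) (k : ℕ) (O : Finset ℕ) : Prop where
  bd : ∀ o ∈ O, o < 2 ^ (4 * a k + 8 * u k)
  c2 : ∀ i, k ≤ i → ∀ r, (O.filter (fun o => o % (q i) ^ 2 = r)).card
    ≤ (k + 1) * (8192 * 2 ^ (4 * u i + 4 * e i))
  c4 : ∀ i, k ≤ i → ∀ r, (O.filter (fun o => o % (q i) ^ 4 = r)).card ≤ Dk κ k
  rep : ∀ n, repF O n ≤ 4 * Cs * a k
  repl : ∀ n, 2 ^ zR a u k ≤ n → repF O n ≤ Cs * a k
  cov : ∀ n, n < 2 ^ (4 * a k + 8 * u k - 8) → ∃ x ∈ O, ∃ y ∈ O, x + y = n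
  wn : WinLe O ((k + 1) * (2 * 2 ^ (13 * u k)))

/-- The density of the random sets. -/
noncomputable def dens (L x : ℕ) : ℝ := min 1 (√(16 * L / (x + 1)))

end Pool.Agent.Helper48.FB
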