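import Pool.Agent.Helper48.FB.LevStep2

/-!
# Project FB, D1: the finite theorem
-/

set_option autoImplicit false

namespace Pool.Agent.Helper48.FB

open Finset
open Pool.Agent.Helper53.WR

/-- All levels. -/
theorem levels2 {s : ℕ} (hs : 200 ≤ s) (i : ℕ) : ∀ J, 100 ≤ J → J ≤ 2 ^ (s * i) * 2 ^ (8 * s) →
    J ≤ 2 ^ s ^ 2 → LevT s (2 ^ (37 * i) * 2 ^ (8 * s + 66)) (400 * 85 ^ i) J := by
  have hbase : ∀ (i J : ℕ), 100 ≤ J → J ≤ 2 ^ (8 * s) →
      LevT s (2 ^ (37 * i) * 2 ^ (8 * s + 66)) (400 * 85 ^ i) J := by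
    intro i J h1 h2
    refine (lev_base (by omega) h1 h2).mono ?_ (Nat.zero_le _)
    have h3 : 1 ≤ 2 ^ (8 * s) := Nat.one_le_two_pow
    calc Cs * (2 ^ (8 * s) + 1) ≤ 2 ^ 64 * (2 * 2 ^ (8 * s)) := by
          unfold Cs
          exact Nat.mul_le_mul_left _ (by omega)
      _ ≤ 1 * 2 ^ (8 * s + 66) := by
          rw [show 8 * s + 66 = (64 + 1 + 8 * s) + 1 by ring, pow_succ 2 (64 + 1 + 8 * s),
            pow_add 2 (64 + 1), pow_succ 2 64]
          have : 0 < 2 ^ 64 * 2 * 2 ^ (8 * s) := by positivity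
          nlinarith
      _ ≤ _ := Nat.mul_le_mul_right _ Nat.one_le_two_pow
  induction i with
  | zero =>
    intro J h1 h2 _
    exact hbase 0 J h1 (by simpa using h2)
  | succ i ih =>
    intro J h1 h2 h3
    rcases le_or_gt J (2 ^ (8 * s)) with h | h
    · exact hbase (i + 1) J h1 h
    · have hstep := level_step2 (s := s) (F := 2 ^ (37 * i) * 2 ^ (8 * s + 66)) (X := 400 * 85 ^ i)
        hs h h3 ?_
      · refine hstep.mono ?_ ?_
        · have g1 : 2 ^ (6 * s) ≤ 2 ^ 36 * (2 ^ (37 * i) * 2 ^ (8 * s + 66)) := by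
            calc 2 ^ (6 * s) ≤ 2 ^ (8 * s + 66) := Nat.pow_le_pow_right (by norm_num) (by omega)
              _ ≤ 2 ^ (37 * i) * 2 ^ (8 * s + 66) := Nat.le_mul_of_pos_left _ (by positivity)
              _ ≤ _ := Nat.le_mul_of_pos_left _ (by positivity)
          calc 2 ^ 36 * (2 ^ (37 * i) * 2 ^ (8 * s + 66)) + 2 ^ (6 * s)
              ≤ 2 * (2 ^ 36 * (2 ^ (37 * i) * 2 ^ (8 * s + 66))) := by omega
            _ = 2 ^ (37 * (i + 1)) * 2 ^ (8 * s + 66) := by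
                rw [show 37 * (i + 1) = 1 + 36 + 37 * i by ring, pow_add 2 (1 + 36), pow_add 2 1]
                ring
        · have g1 : 1 ≤ 85 ^ i := Nat.one_le_pow _ _ (by norm_num)
          rw [pow_succ 85 i]
          omega
      · intro L hL1 hL2
        have h2s : 0 < 2 ^ s := by positivity
        refine ih L hL1 ?_ ?_
        · have g1 : L * 2 ^ s ≤ 2 ^ (s * i) * 2 ^ (8 * s) * 2 ^ s := by
            calc L * 2 ^ s ≤ J := hL2
              _ ≤ 2 ^ (s * (i + 1)) * 2 ^ (8 * s) := h2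
              _ = 2 ^ (s * i) * 2 ^ (8 * s) * 2 ^ s := by rw [mul_add, mul_one, pow_add]; ring
          exact Nat.le_of_mul_le_mul_right g1 h2s
        · have : L * 1 ≤ L * 2 ^ s := Nat.mul_le_mul_left _ Nat.one_le_two_pow
          omega

/-- FB-D1 (finite theorem). -/
theorem finite_thm2 : ∃ c s0 : ℕ, ∀ s, s0 ≤ s → ∀ J : ℕ, 100 ≤ J → 14 * Nat.log 2 J ≤ s ^ 2 →
    ∃ T T' B : Finset ℕ, Top J (Cs * (J + 1)) (2 ^ (c * s)) (J / 2 ^ (s + 2) + c * s) T T' B ∧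
      B.card * 2 ^ (s / 2) ≤ 2 ^ c * J ∧ ∀ j ∈ B, j < J := by
  refine ⟨100, 200, fun s hs J hJ hlog => ?_⟩
  have hJlt : J < 2 ^ (Nat.log 2 J + 1) := Nat.lt_pow_succ_log_self (by norm_num) J
  have hm : s ≤ 14 * (s / 14) + 13 := by omega
  have h1 : Nat.log 2 J ≤ s * (s / 14 + 1) := by
    have h2 : s ^ 2 ≤ 14 * (s * (s / 14 + 1)) := by
      rw [sq]
      have : s * s ≤ s * (14 * (s / 14) + 14) := Nat.mul_le_mul_left _ (by omega)
      nlinarith
    omega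
  have hs2 : s * (s / 14 + 1) + 1 ≤ s ^ 2 := by
    rw [sq]
    have : s / 14 + 2 ≤ s := by omega
    have h3 : s * (s / 14 + 2) ≤ s * s := Nat.mul_le_mul_left _ this
    nlinarith
  have hJ1 : J ≤ 2 ^ (s * (s / 14 + 1)) * 2 ^ (8 * s) := by
    rw [← pow_add]
    calc J ≤ 2 ^ (Nat.log 2 J + 1) := hJlt.le
      _ ≤ 2 ^ (s * (s / 14 + 1) + 8 * s) := Nat.pow_le_pow_right (by norm_num) (by omega)
  have hJ2 : J ≤ 2 ^ s ^ 2 := by
    calc J ≤ 2 ^ (Nat.log 2 J + 1) := hJlt.le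
      _ ≤ 2 ^ s ^ 2 := Nat.pow_le_pow_right (by norm_num) (by omega)
  obtain ⟨T, T', B, hT, hB, hBJ⟩ := levels2 hs (s / 14 + 1) J hJ hJ1 hJ2
  · refine ⟨T, T', B, hT.mono ?_ (le_of_eq rfl), ?_, hBJ⟩
    · rw [← pow_add]
      exact Nat.pow_le_pow_right (by norm_num) (by omega)
    · have g1 : 85 ^ (s / 14) ≤ 2 ^ (7 * (s / 14)) := by
        rw [pow_mul]
        exact Nat.pow_le_pow_left (by norm_num) _
      have g2 : B.card * 2 ^ (s / 2) * 2 ^ (7 * (s / 14)) ≤ 2 ^ 100 * J * 2 ^ (7 * (s / 14)) := by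
        calc B.card * 2 ^ (s / 2) * 2 ^ (7 * (s / 14))
            = B.card * 2 ^ (s / 2 + 7 * (s / 14)) := by rw [pow_add]; ring
          _ ≤ B.card * 2 ^ s :=
              Nat.mul_le_mul_left _ (Nat.pow_le_pow_right (by norm_num) (by omega))
          _ ≤ 400 * 85 ^ (s / 14 + 1) * J := hB
          _ = 34000 * 85 ^ (s / 14) * J := by rw [pow_succ 85 (s / 14)]; ring
          _ ≤ 2 ^ 100 * 2 ^ (7 * (s / 14)) * J := by
              refine Nat.mul_le_mul_right _ (Nat.mul_le_mul (by norm_num) g1)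
          _ = 2 ^ 100 * J * 2 ^ (7 * (s / 14)) := by ring
      exact Nat.le_of_mul_le_mul_right g2 (by positivity)

end Pool.Agent.Helper48.FB
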