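import Pool.Agent.Helper48.FB.Defs
import Pool.Agent.Helper48.WR.FinSeq
import Pool.Agent.Helper48.WR.FinCount

/-!
# Project FB, D1, part 1: the parameters of a level
-/

set_option autoImplicit false

namespace Pool.Agent.Helper48.FB

open Finset
open Pool.Agent.Helper53.WR
open Pool.Agent.Helper48.WR (aSq uSq eSq aSq_zero aSq_succ aSq_mono le_aSq aSq_add cut mem_cut)

lemma laT_le_u {u : ℕ → ℕ} (huu : ∀ k, 6 * u (k + 1) ≤ 7 * u k) (k : ℕ) :
    laT u k ≤ 14 * u k := by
  have := huu k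
  unfold laT
  omega

lemma ftow_aSq {K E t b : ℕ} (hK : 2 ^ 42 ≤ K) (hE : 300 ≤ E) (ht : 400 * K ≤ t)
    (hEt : 2 ^ 70 * t ≤ 2 ^ E) (hbE : 200 * K * (E + 2) ≤ b) (hb : 2 ^ 31 * K * K * t ≤ b)
    (w : ℕ → ℕ) (hw : ∀ k, w k ≤ 20 * eSq K b E t k) :
    FTow (aSq K b) (uSq K b) (eSq K b E t) (fun _ => t) (fun _ => 4 * K) w := by
  have hK0 : 0 < K := by omega
  have ht0 : 0 < t := by omega
  have hU : ∀ k, 200 * (E + 2) ≤ aSq K b k / K := by
    intro k
    rw [Nat.le_div_iff_mul_le hK0]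
    have := le_aSq K b k
    nlinarith
  have hlt : ∀ x : ℕ, x < t * (x / t + 1) := fun x => Nat.lt_mul_div_succ x ht0
  have huu : ∀ k, 6 * uSq K b (k + 1) ≤ 7 * uSq K b k := by
    intro k
    unfold uSq
    rw [aSq_succ]
    have h1 := hU k
    set x := aSq K b k with hx
    set U := x / K with hUd
    have h2 : (x + U) / K ≤ U + 1 + U / 100 := by
      have h3 : x < K * (U + 1) := Nat.lt_mul_div_succ x hK0
      have h4 : U < 100 * (U / 100 + 1) := Nat.lt_mul_div_succ U (by norm_num)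
      have h5 : x + U < K * (U + 1 + (U / 100 + 1)) := by
        have h6 : 100 * (U / 100 + 1) ≤ K * (U / 100 + 1) := Nat.mul_le_mul_right _ (by omega)
        rw [mul_add K (U + 1)]
        omega
      have h7 := Nat.div_lt_of_lt_mul h5
      omega
    omega
  have h20 : ∀ k, 2 ^ 70 * aSq K b k ≤ 2 ^ eSq K b E t k := by
    intro k
    unfold eSq
    set x := aSq K b k with hx
    have h1 := hlt x
    have h2 : x / t + 1 ≤ 2 ^ (x / t + 1) := Nat.lt_two_pow_self.le
    calc 2 ^ 70 * x ≤ 2 ^ 70 * (t * (x / t + 1)) := Nat.mul_le_mul_left _ h1.le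
      _ = 2 ^ 70 * t * (x / t + 1) := by ring
      _ ≤ 2 ^ E * 2 ^ (x / t + 1) := Nat.mul_le_mul hEt h2
      _ = 2 ^ (E + x / t + 1) := by rw [← pow_add, add_assoc]
  have h42 : ∀ k, 2 ^ 42 * uSq K b k ≤ aSq K b k := by
    intro k
    unfold uSq
    calc 2 ^ 42 * (aSq K b k / K) ≤ K * (aSq K b k / K) := Nat.mul_le_mul_right _ hK
      _ = aSq K b k / K * K := mul_comm _ _
      _ ≤ _ := Nat.div_mul_le_self _ _
  refine ⟨⟨fun k => rfl, ?_, ?_, ?_, huu, ?_, ?_, ?_, ?_, ?_, ?_, ?_⟩, h42, ?_, hw⟩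
  · intro k
    unfold eSq
    generalize aSq K b k / t = y
    omega
  · intro k
    unfold eSq uSq
    have h1 := hU k
    have h2 : aSq K b k / t ≤ aSq K b k / K / 400 := by
      rw [Nat.div_div_eq_div_mul, mul_comm K 400]
      exact Nat.div_le_div_left ht (by omega)
    omega
  · intro k
    have := h42 k
    omega
  · intro k
    unfold uSq
    exact Nat.div_le_div_right (aSq_mono K _ (Nat.le_succ k))
  · intro k
    unfold eSq
    exact Nat.add_le_add_right (Nat.add_le_add_left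
      (Nat.div_le_div_right (aSq_mono K b (Nat.le_succ k))) _) _
  · intro k
    exact le_rfl
  · intro k
    have := h20 k
    omega
  · intro k
    unfold Fs Cs
    have h1 := laT_le_u huu k
    have h2 := h42 k
    have h3 := h20 k
    have h4 : 1 ≤ aSq K b k := by
      have h5 := hU k
      have h6 := Nat.div_le_self (aSq K b k) K
      omega
    have h5 : laT (uSq K b) k + 1 ≤ 2 * aSq K b k := by omega
    calc 2 ^ 64 * (laT (uSq K b) k + 1) ≤ 2 ^ 64 * (2 * aSq K b k) := Nat.mul_le_mul_left _ h5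
      _ ≤ 2 ^ 70 * aSq K b k := by omega
      _ ≤ _ := h3
  · intro k
    unfold eSq
    set x := aSq K b k with hx
    have h1 := hlt x
    have h2 : t * (x / t + 1) ≤ (E + x / t + 1) * t := by
      rw [mul_comm]
      refine Nat.mul_le_mul_right _ ?_
      generalize x / t = y
      omega
    show x ≤ (E + x / t + 1) * t
    omega
  · intro k
    unfold uSq
    have h1 := hU k
    set x := aSq K b k with hx
    have h3 : x < K * (x / K + 1) := Nat.lt_mul_div_succ x hK0
    have h4 : 3 ≤ x / K := by omega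
    have h5 : 3 * x ≤ 3 * (K * (x / K + 1)) := by omega
    have h6 : 3 * (K * (x / K + 1)) ≤ x / K * (4 * K) := by nlinarith
    show 3 * x ≤ x / K * (4 * K)
    omega
  · intro k
    have h1 := aSq_add K b 0 k
    rw [aSq_zero, zero_add] at h1
    have h2 : 2 ^ 31 * K * t ≤ b / K := by
      rw [Nat.le_div_iff_mul_le hK0]
      calc 2 ^ 31 * K * t * K = 2 ^ 31 * K * K * t := by ring
        _ ≤ b := hb
    have h3 : b / K ≤ b := Nat.div_le_self _ _
    have h4 : (k + 1) * (b / K) ≤ aSq K b k := by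
      calc (k + 1) * (b / K) = b / K + k * (b / K) := by ring
        _ ≤ b + k * (b / K) := by omega
        _ ≤ _ := h1
    have h5 : Dk (fun _ => 4 * K) k = (k + 1) * (2 ^ 18 * K) := by
      unfold Dk
      ring
    rw [h5]
    calc 2 ^ 13 * (t * ((k + 1) * (2 ^ 18 * K))) = (k + 1) * (2 ^ 31 * K * t) := by ring
      _ ≤ (k + 1) * (b / K) := Nat.mul_le_mul_left _ h2
      _ ≤ _ := h4

end Pool.Agent.Helper48.FB
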