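import Pool.Agent.Helper63.WR2.Inf
import Pool.Agent.Helper48.FB.LevSeq

/-!
# Project FB, D2, part 1: the parameters of the infinite tower
-/

set_option autoImplicit false

namespace Pool.Agent.Helper48.FB

open Filter Finset
open Pool.Agent.Helper53.WR
open Pool.Agent.Helper63.WR2

/-- Additional conditions. -/
structure Cond2 (a : ℕ) : Prop where
  w42 : 2 ^ 42 ≤ w a
  w7 : 2 ^ 36 * w a ^ 7 ≤ a

lemma eventually_cond2 : ∀ᶠ a : ℕ in atTop, Cond2 a := by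
  have hcast : Tendsto (fun a : ℕ => (a : ℝ)) atTop atTop := tendsto_natCast_atTop_atTop
  have h1 := hcast.eventually (tendsto_sqrt_log.eventually_ge_atTop 40)
  have h3 := hcast.eventually (tendsto_w.eventually_ge_atTop (2 ^ 42))
  filter_upwards [h1, h3, eventually_ge_atTop 1] with a h1 h3 h8
  refine ⟨h3, ?_⟩
  have ha : (0 : ℝ) < a := by exact_mod_cast h8
  have hla : 0 ≤ Real.log a := Real.log_nonneg (by exact_mod_cast h8)
  have e1 : Real.log a = √(Real.log a) * √(Real.log a) := (Real.mul_self_sqrt hla).symm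
  have e2 : (a : ℝ) = Real.exp (√(Real.log a) * √(Real.log a)) := by
    rw [← e1, Real.exp_log ha]
  have e3 : (2 : ℝ) ^ 36 ≤ Real.exp 36 := by
    have h : (2 : ℝ) ≤ Real.exp 1 := by linarith [Real.exp_one_gt_d9]
    calc (2 : ℝ) ^ 36 ≤ (Real.exp 1) ^ 36 := pow_le_pow_left₀ (by norm_num) h 36
      _ = Real.exp 36 := by rw [← Real.exp_nat_mul]; norm_num
  have e4 : w a ^ 7 = Real.exp (7 * √(Real.log a)) := by
    unfold w
    rw [← Real.exp_nat_mul]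
    norm_num
  calc 2 ^ 36 * w a ^ 7 ≤ Real.exp 36 * Real.exp (7 * √(Real.log a)) := by
        rw [e4]
        exact mul_le_mul_of_nonneg_right e3 (Real.exp_pos _).le
    _ = Real.exp (36 + 7 * √(Real.log a)) := by rw [Real.exp_add]
    _ ≤ Real.exp (√(Real.log a) * √(Real.log a)) := by
        apply Real.exp_le_exp.2
        nlinarith
    _ = a := e2.symm

/-- `w a ^ 3 ≤ 2 ^ (4 s)`. -/
lemma w_pow_three_le {a : ℕ} (ha : a ≠ 0) :
    w a ^ 3 ≤ (2 : ℝ) ^ (4 * (Nat.sqrt (Nat.log 2 a) + 1)) := by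
  have h1 := w_pow_four_le ha
  set s := Nat.sqrt (Nat.log 2 a) + 1
  have hw := w_pos (a : ℝ)
  have hw1 := one_le_w (a : ℝ)
  have h2 : (w a ^ 3) ^ 5 ≤ ((2 : ℝ) ^ (4 * s)) ^ 5 := by
    calc (w a ^ 3) ^ 5 = w a ^ 15 := by ring
      _ ≤ w a ^ 16 := pow_le_pow_right₀ hw1 (by norm_num)
      _ = (w a ^ 4) ^ 4 := by ring
      _ ≤ ((2 : ℝ) ^ (5 * s)) ^ 4 := pow_le_pow_left₀ (by positivity) h1 4
      _ = ((2 : ℝ) ^ (4 * s)) ^ 5 := by rw [← pow_mul, ← pow_mul]; congr 1; ring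
  exact le_of_pow_le_pow_left₀ (by norm_num) (by positivity) h2

/-- `w a ≤ 2 ^ (2 s)`. -/
lemma w_le_two_pow {a : ℕ} (ha : a ≠ 0) :
    w a ≤ (2 : ℝ) ^ (2 * (Nat.sqrt (Nat.log 2 a) + 1)) := by
  have h1 := w_pow_four_le ha
  set s := Nat.sqrt (Nat.log 2 a) + 1
  have hw := w_pos (a : ℝ)
  have h2 : (w a) ^ 4 ≤ ((2 : ℝ) ^ (2 * s)) ^ 4 := by
    calc (w a) ^ 4 ≤ (2 : ℝ) ^ (5 * s) := h1
      _ ≤ (2 : ℝ) ^ (2 * s * 4) := pow_le_pow_right₀ (by norm_num) (by omega)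
      _ = ((2 : ℝ) ^ (2 * s)) ^ 4 := by rw [← pow_mul]
  exact le_of_pow_le_pow_left₀ (by norm_num) (by positivity) h2

variable {c s0 a0 : ℕ}

/-- The window parameter of the top sets. -/
noncomputable def wS (c a0 k : ℕ) : ℕ := laT (uS a0) k / 2 ^ (4 * sS a0 k + 2) + c * (4 * sS a0 k)

lemma tS_le' (H : ∀ a, a0 ≤ a → Cond 1 (c + 40) s0 a) (k : ℕ) :
    (tS 1 a0 k : ℝ) ≤ 2 * w (aS a0 k) ^ 4 := by
  have h := tS_le (ρ := 0) (c := c + 40) (s0 := s0) (a0 := a0) (by simpa using H) le_rfl k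
  simpa using h

lemma hlogle (H : ∀ a, a0 ≤ a → Cond 1 (c + 40) s0 a) (k : ℕ) :
    (2 * (c + 40) + 6) * (Nat.log 2 (aS a0 k) + 1) + 1 ≤ eS 1 a0 k := by
  have h1 := (H _ (a0_le a0 k)).hlog
  have h2 : Phi 1 (aS a0 k) ≤ (eS 1 a0 k : ℝ) := Nat.le_ceil _
  exact_mod_cast h1.trans h2

lemma tow_Fs (H : ∀ a, a0 ≤ a → Cond 1 (c + 40) s0 a) :
    Tow (aS a0) (uS a0) (eS 1 a0) (tS 1 a0) (kS a0) (Fs (uS a0)) := by
  have tw := tow (ρ := 0) H one_pos le_rfl zero_le_one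
  refine ⟨tw.step, tw.e300, tw.eu, tw.ua, tw.uu, tw.uu', tw.ee', tw.kk', tw.h20, ?_, tw.ht, tw.hκ⟩
  intro k
  have h1 := laT_le H le_rfl k
  have h2 : aS a0 k < 2 ^ (Nat.log 2 (aS a0 k) + 1) := Nat.lt_pow_succ_log_self (by norm_num) _
  have h3 := hlogle H k
  unfold Fs Cs
  calc 2 ^ 64 * (laT (uS a0) k + 1) ≤ 2 ^ 64 * 2 ^ (Nat.log 2 (aS a0 k) + 1) :=
        Nat.mul_le_mul_left _ (by omega)
    _ = 2 ^ (64 + (Nat.log 2 (aS a0 k) + 1)) := (pow_add _ _ _).symm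
    _ ≤ 2 ^ eS 1 a0 k := Nat.pow_le_pow_right (by norm_num) (by nlinarith)

/-- Bound for `t * D`. -/
lemma tD_le (H : ∀ a, a0 ≤ a → Cond 1 (c + 40) s0 a) (k : ℕ) :
    ((tS 1 a0 k * Dk (kS a0) k : ℕ) : ℝ) ≤ 2 ^ 17 * 55 * w (aS a0 k) ^ 7 := by
  have ht := tS_le' H k
  have hκ := kS_le (a0 := a0) k
  have hk := index_le H (tow_Fs H) k
  have hpos := (H (aS a0 k) (a0_le a0 k)).pos
  have hlog := log_le_two_w (x := (aS a0 k : ℝ)) (by exact_mod_cast hpos)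
  have hw1 := one_le_w (aS a0 k)
  have hlog0 : 0 ≤ Real.log (aS a0 k) := Real.log_nonneg (by exact_mod_cast hpos)
  unfold Dk
  push_cast
  set x : ℝ := ((aS a0 k : ℕ) : ℝ)
  set W : ℝ := w x
  have hk2 : (k : ℝ) + 1 ≤ 11 * W ^ 2 := by nlinarith
  have hW0 : 0 < W := by linarith
  have h1 : ((k : ℝ) + 1) * (8192 * (8 * (kS a0 k : ℝ))) ≤ 11 * W ^ 2 * (8192 * (8 * (5 * W))) := by
    apply mul_le_mul hk2 (by linarith) (by positivity) (by positivity)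
  calc (tS 1 a0 k : ℝ) * (((k : ℝ) + 1) * (8192 * (8 * (kS a0 k : ℝ))))
      ≤ 2 * W ^ 4 * (11 * W ^ 2 * (8192 * (8 * (5 * W)))) := by
        apply mul_le_mul ht h1 (by positivity) (by positivity)
    _ = 2 ^ 17 * 55 * W ^ 7 := by ring

lemma ftow_inf (H : ∀ a, a0 ≤ a → Cond 1 (c + 40) s0 a) (H2 : ∀ a, a0 ≤ a → Cond2 a) :
    FTow (aS a0) (uS a0) (eS 1 a0) (tS 1 a0) (kS a0) (wS c a0) := by
  have tw := tow_Fs H
  have hu1 : ∀ k, (uS a0 k : ℝ) ≤ Psi (aS a0 k) := by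
    intro k
    apply Nat.floor_le
    have := (H (aS a0 k) (a0_le a0 k)).hPsi
    linarith
  refine ⟨tw, ?_, ?_, ?_⟩
  · intro k
    have h1 := hu1 k
    have h2 := (H2 (aS a0 k) (a0_le a0 k)).w42
    have h3 : Psi (aS a0 k) * w (aS a0 k) = (aS a0 k : ℝ) := by
      unfold Psi
      exact div_mul_cancel₀ _ (w_pos _).ne'
    have h4 : (0 : ℝ) ≤ uS a0 k := Nat.cast_nonneg _
    have h5 : ((2 ^ 42 * uS a0 k : ℕ) : ℝ) ≤ ((aS a0 k : ℕ) : ℝ) := by
      rw [Nat.cast_mul, Nat.cast_pow, Nat.cast_ofNat]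
      calc (2 : ℝ) ^ 42 * (uS a0 k : ℝ) ≤ w (aS a0 k) * Psi (aS a0 k) :=
            mul_le_mul h2 h1 h4 (w_pos _).le
        _ = _ := by rw [mul_comm, h3]
    exact_mod_cast h5
  · intro k
    have h1 := tD_le H k
    have h2 := (H2 (aS a0 k) (a0_le a0 k)).w7
    have h3 : ((2 ^ 13 * (tS 1 a0 k * Dk (kS a0) k) : ℕ) : ℝ) ≤ ((aS a0 k : ℕ) : ℝ) := by
      rw [Nat.cast_mul]
      push_cast at h1 ⊢
      have hw : 0 < w (aS a0 k) ^ 7 := pow_pos (w_pos _) 7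
      nlinarith
    exact_mod_cast h3
  · intro k
    have hpos := (H (aS a0 k) (a0_le a0 k)).pos
    have h1 := hu1 k
    have h2 := w_pow_three_le (a := aS a0 k) (by omega)
    have h3 := laT_le_u tw.uu k
    have h4 := hlogle H k
    have h5 := sS_log_bound (aS a0 k)
    have hw := w_pos (aS a0 k)
    have he : Phi 1 (aS a0 k) ≤ (eS 1 a0 k : ℝ) := Nat.le_ceil _
    have hx0 : (0 : ℝ) < ((aS a0 k : ℕ) : ℝ) := by exact_mod_cast hpos
    have h6 : ((laT (uS a0) k / 2 ^ (4 * sS a0 k + 2) : ℕ) : ℝ) ≤ 4 * (eS 1 a0 k : ℝ) := by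
      refine (Nat.cast_div_le).trans ?_
      push_cast
      have h7 : (laT (uS a0) k : ℝ) ≤ 14 * Psi (aS a0 k) := by
        have : (laT (uS a0) k : ℝ) ≤ 14 * (uS a0 k : ℝ) := by exact_mod_cast h3
        linarith
      have h8 : 4 * w (aS a0 k) ^ 3 ≤ (2 : ℝ) ^ (4 * sS a0 k + 2) := by
        rw [pow_add]
        unfold sS
        linarith
      have hPhi : Phi 1 (aS a0 k) = Psi (aS a0 k) / w (aS a0 k) ^ 3 := by
        unfold Phi Psi
        rw [Real.rpow_one]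
        field_simp
      have hPsi0 : 0 ≤ Psi (aS a0 k) := by unfold Psi; positivity
      calc (laT (uS a0) k : ℝ) / 2 ^ (4 * sS a0 k + 2)
          ≤ 14 * Psi (aS a0 k) / (4 * w (aS a0 k) ^ 3) :=
            div_le_div₀ (by linarith) h7 (by positivity) h8
        _ = 7 / 2 * Phi 1 (aS a0 k) := by
            rw [hPhi]
            field_simp
            ring
        _ ≤ 4 * (eS 1 a0 k : ℝ) := by
            have : 0 ≤ Phi 1 (aS a0 k) := Phi_nonneg hx0.le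
            linarith
    have h6' : laT (uS a0) k / 2 ^ (4 * sS a0 k + 2) ≤ 4 * eS 1 a0 k := by exact_mod_cast h6
    have h9 : c * (4 * sS a0 k) ≤ 4 * eS 1 a0 k := by
      have h10 : sS a0 k ≤ Nat.log 2 (aS a0 k) + 1 := h5
      have h11 : c * (4 * sS a0 k) ≤ 4 * (c * (Nat.log 2 (aS a0 k) + 1)) := by
        have := Nat.mul_le_mul_left c h10
        nlinarith
      have h12 : c * (Nat.log 2 (aS a0 k) + 1) ≤ (2 * (c + 40) + 6) * (Nat.log 2 (aS a0 k) + 1) :=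
        Nat.mul_le_mul_right _ (by omega)
      omega
    unfold wS
    omega

end Pool.Agent.Helper48.FB
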