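import Pool.Agent.Helper48.FB.InfSeq
import Pool.Agent.Helper48.FB.FiniteThm

/-!
# Project FB, D2: the infinite theorem
-/

set_option autoImplicit false

namespace Pool.Agent.Helper48.FB

open Filter Finset
open Pool.Agent.Helper53.WR
open Pool.Agent.Helper63.WR2
open Pool.Agent.Helper48.WR (cut mem_cut exists_range)

/-- `x / w x ^ 2`. -/
noncomputable def X2 (x : ℝ) : ℝ := x / w x ^ 2

lemma X2_eq {x : ℝ} (hx : 0 < x) : X2 x = Real.exp (Real.log x - 2 * √(Real.log x)) := by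
  unfold X2 w
  rw [← Real.exp_nat_mul, Real.exp_sub, Real.exp_log hx]
  norm_num

lemma X2_mono {x y : ℝ} (hx : 0 < x) (h2 : 2 ≤ √(Real.log x)) (h : x ≤ y) : X2 x ≤ X2 y := by
  rw [X2_eq hx, X2_eq (hx.trans_le h)]
  apply Real.exp_le_exp.2
  have hsx : 0 < √(Real.log x) := by linarith
  have hlx : 0 < Real.log x := Real.sqrt_pos.1 hsx
  have hl : Real.log x ≤ Real.log y := Real.log_le_log hx h
  have hs : √(Real.log x) ≤ √(Real.log y) := Real.sqrt_le_sqrt hl
  have e1 : Real.log x = √(Real.log x) * √(Real.log x) := (Real.mul_self_sqrt hlx.le).symm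
  have e2 : Real.log y = √(Real.log y) * √(Real.log y) :=
    (Real.mul_self_sqrt (hlx.le.trans hl)).symm
  set a := √(Real.log x)
  set b := √(Real.log y)
  rw [e1, e2]
  nlinarith

lemma Phi_le_X2 {x : ℝ} (hx : 0 ≤ x) : Phi 1 x ≤ X2 x := by
  unfold Phi X2
  rw [Real.rpow_one]
  exact div_le_div_of_nonneg_left hx (pow_pos (w_pos x) 2)
    (pow_le_pow_right₀ (one_le_w x) (by norm_num))

lemma final2 (C1 C3 : ℝ) (hC1 : 0 ≤ C1) (hC3 : 0 ≤ C3) :
    ∀ᶠ x : ℝ in atTop, C1 + C3 * (w x * Real.log x) * X2 x ≤ x * Real.exp (-(1 / 2 * √(Real.log x))) := by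
  filter_upwards [tendsto_sqrt_log.eventually_ge_atTop (96 * C3 + 4 * C1 + 1),
    eventually_gt_atTop (1 : ℝ)] with x h1 hx
  have hx0 : 0 < x := by linarith
  have hl : 0 ≤ Real.log x := Real.log_nonneg hx.le
  have e1 : Real.log x = √(Real.log x) * √(Real.log x) := (Real.mul_self_sqrt hl).symm
  set y := √(Real.log x) with hy
  have hy1 : 1 ≤ y := by nlinarith
  have e2 : x = Real.exp (y * y) := by rw [← e1, Real.exp_log hx0]
  have e3 : w x * X2 x = Real.exp (y * y - y) := by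
    rw [X2_eq hx0, ← hy, e1]
    unfold w
    rw [← hy, ← Real.exp_add]
    congr 1
    ring
  have e4 : x * Real.exp (-(1 / 2 * y)) = Real.exp (y * y - y / 2) := by
    rw [e2, ← Real.exp_add]
    congr 1
    ring
  have h2 : 2 * C1 ≤ Real.exp (y * y - y / 2) := by
    have h3 := Real.add_one_le_exp (y * y - y / 2)
    nlinarith
  have h4 : 2 * (C3 * (y * y)) ≤ Real.exp (y / 2) := by
    have h5 := Real.pow_div_factorial_le_exp (y / 2) (by linarith) 3
    have h6 : (y / 2) ^ 3 / ((Nat.factorial 3 : ℕ) : ℝ) = y * (y * y) / 48 := by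
      norm_num [Nat.factorial]
      ring
    rw [h6] at h5
    have h7 : 96 * C3 * (y * y) ≤ y * (y * y) :=
      mul_le_mul_of_nonneg_right (by linarith) (by positivity)
    linarith
  have h8 : C3 * (w x * Real.log x) * X2 x = (C3 * (y * y)) * Real.exp (y * y - y) := by
    rw [← e3, e1]
    ring
  have h9 : 2 * ((C3 * (y * y)) * Real.exp (y * y - y)) ≤ Real.exp (y * y - y / 2) := by
    calc 2 * ((C3 * (y * y)) * Real.exp (y * y - y))
        = (2 * (C3 * (y * y))) * Real.exp (y * y - y) := by ring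
      _ ≤ Real.exp (y / 2) * Real.exp (y * y - y) :=
          mul_le_mul_of_nonneg_right h4 (Real.exp_pos _).le
      _ = Real.exp (y * y - y / 2) := by
          rw [← Real.exp_add]
          congr 1
          ring
  rw [h8, e4]
  linarith

lemma abs_bound {C0 : ℝ} (hC0 : 1 ≤ C0) (m : ℕ) {a : ℕ} {l : ℝ} (ha : 1 ≤ a)
    (h1 : 1 ≤ √(Real.log a)) (hl : (a : ℝ) ≤ l) :
    C0 * w a ^ m ≤ Real.exp ((Real.log C0 + m) * √(Real.log l)) := by
  have ha0 : (0 : ℝ) < a := by exact_mod_cast ha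
  have h2 : √(Real.log a) ≤ √(Real.log l) := Real.sqrt_le_sqrt (Real.log_le_log ha0 hl)
  have h3 : C0 = Real.exp (Real.log C0) := (Real.exp_log (by linarith)).symm
  have h4 : w a ^ m = Real.exp (m * √(Real.log a)) := by
    unfold w
    rw [← Real.exp_nat_mul]
  have h5 : 0 ≤ Real.log C0 := Real.log_nonneg hC0
  have h6 : (0 : ℝ) ≤ m := Nat.cast_nonneg _
  rw [h4]
  calc C0 * Real.exp (m * √(Real.log a))
      = Real.exp (Real.log C0) * Real.exp (m * √(Real.log a)) := by rw [← h3]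
    _ = Real.exp (Real.log C0 + m * √(Real.log a)) := by rw [Real.exp_add]
    _ ≤ Real.exp ((Real.log C0 + m) * √(Real.log l)) := by
        apply Real.exp_le_exp.2
        nlinarith [mul_le_mul_of_nonneg_left h2 h6,
          mul_le_mul_of_nonneg_left (h1.trans h2) h5]

variable {c s0 a0 : ℕ}

/-- Bound for the number of representations. -/
lemma rep_bound2 (H : ∀ a, a0 ≤ a → Cond 1 (c + 40) s0 a) (k : ℕ) :
    ((4096 ^ 2 * 2592 * 2 ^ (c * (4 * sS a0 k)) + 2 * (4096 * (tS 1 a0 k * Dk (kS a0) k))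
      + 2 * tS 1 a0 k : ℕ) : ℝ)
      ≤ (4096 ^ 2 * 2592 * 2 ^ (4 * c) + 2 ^ 30 * 55 + 4) * w (aS a0 k) ^ (4 * c + 7) := by
  have hw1 := one_le_w (aS a0 k)
  have h1 := tD_le H k
  have h2 := tS_le' H k
  have h3 : ((2 : ℝ) ^ (c * (4 * sS a0 k))) ≤ 2 ^ (4 * c) * w (aS a0 k) ^ (4 * c) := by
    have h4 := two_pow_sS H k
    calc (2 : ℝ) ^ (c * (4 * sS a0 k)) = ((2 : ℝ) ^ sS a0 k) ^ (4 * c) := by
          rw [← pow_mul]
          congr 1
          ring
      _ ≤ (2 * w (aS a0 k)) ^ (4 * c) := pow_le_pow_left₀ (by positivity) h4 _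
      _ = _ := by rw [mul_pow]
  rw [Nat.cast_add, Nat.cast_add, Nat.cast_mul (4096 ^ 2 * 2592), Nat.cast_mul 2 (4096 * _),
    Nat.cast_mul 4096, Nat.cast_mul 2 (tS 1 a0 k)]
  set W : ℝ := w (aS a0 k)
  have g1 : W ^ (4 * c) ≤ W ^ (4 * c + 7) := pow_le_pow_right₀ hw1 (by omega)
  have g2 : W ^ 7 ≤ W ^ (4 * c + 7) := pow_le_pow_right₀ hw1 (by omega)
  have g3 : W ^ 4 ≤ W ^ (4 * c + 7) := pow_le_pow_right₀ hw1 (by omega)
  have g4 : (2 : ℝ) ^ (c * (4 * sS a0 k)) ≤ 2 ^ (4 * c) * W ^ (4 * c + 7) :=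
    h3.trans (mul_le_mul_of_nonneg_left g1 (by positivity))
  push_cast at h1 ⊢
  have e : ((4096 : ℝ) ^ 2 * 2592 * 2 ^ (4 * c) + 2 ^ 30 * 55 + 4) * W ^ (4 * c + 7)
      = 4096 ^ 2 * 2592 * (2 ^ (4 * c) * W ^ (4 * c + 7)) + 2 ^ 30 * 55 * W ^ (4 * c + 7)
        + 4 * W ^ (4 * c + 7) := by ring
  rw [e]
  nlinarith

lemma exists_tops (H : ∀ a, a0 ≤ a → Cond 1 (c + 40) s0 a)
    (hfin : ∀ s, s0 ≤ s → ∀ J : ℕ, 100 ≤ J → 14 * Nat.log 2 J ≤ s ^ 2 →
      ∃ T T' B : Finset ℕ, Top J (Cs * (J + 1)) (2 ^ (c * s)) (J / 2 ^ (s + 2) + c * s) T T' B ∧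
        B.card * 2 ^ (s / 2) ≤ 2 ^ c * J ∧ ∀ j ∈ B, j < J) (k : ℕ) :
    ∃ T T' B : Finset ℕ, Top (laT (uS a0) k) (Fs (uS a0) k) (2 ^ (c * (4 * sS a0 k)))
      (wS c a0 k) T T' B ∧ B.card * 2 ^ (2 * sS a0 k) ≤ 2 ^ c * laT (uS a0) k := by
  have tw := tow_Fs H
  have hla := laT_le H le_rfl k
  have g1 : s0 ≤ 4 * sS a0 k := by
    have h3 := (H _ (a0_le a0 k)).hs
    have h4 : sS a0 k = Nat.sqrt (Nat.log 2 (aS a0 k)) + 1 := rfl
    omega
  have g2 : 100 ≤ laT (uS a0) k := by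
    have h3 := tw.eu k
    have h4 := tw.e300 k
    have h5 := tw.uu' k
    unfold laT
    omega
  have g3 : 14 * Nat.log 2 (laT (uS a0) k) ≤ (4 * sS a0 k) ^ 2 := by
    have h3 : Nat.log 2 (laT (uS a0) k) ≤ Nat.log 2 (aS a0 k) := Nat.log_mono_right hla
    have h4 : Nat.log 2 (aS a0 k) < (Nat.sqrt (Nat.log 2 (aS a0 k)) + 1) ^ 2 :=
      Nat.lt_succ_sqrt' _
    have h5 : (4 * sS a0 k) ^ 2 = 16 * (Nat.sqrt (Nat.log 2 (aS a0 k)) + 1) ^ 2 := by
      unfold sS
      ring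
    omega
  obtain ⟨T, T', B, h1, h2, -⟩ := hfin (4 * sS a0 k) g1 (laT (uS a0) k) g2 g3
  refine ⟨T, T', B, h1, ?_⟩
  have e : 4 * sS a0 k / 2 = 2 * sS a0 k := by omega
  rw [e] at h2
  exact h2

/-- FB-D2 (infinite theorem). -/
theorem infinite_thm2 : ∃ (A' A : Set ℕ) (C c : ℝ), 0 < c ∧ A' ⊆ A ∧
    (∀ n, ∃ x ∈ A, ∃ y ∈ A, x + y = n) ∧
    (∀ l n : ℕ, 1 ≤ l → n < 2 ^ l → (rep A n : ℝ) ≤ C * l) ∧
    (∀ l n : ℕ, 2 ≤ l → n < 2 ^ l → (rep A' n : ℝ) ≤ Real.exp (C * √(Real.log l))) ∧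
    ∃ Bad : Set ℕ, (∀ j, j ∉ Bad → CovBlock A' j ∧ ∀ n, 2 ^ j ≤ n → n < 2 ^ (j + 1) →
        (rep A n : ℝ) ≤ Real.exp (C * √(Real.log j))) ∧
      ∀ᶠ J : ℕ in atTop, ((Bad ∩ Set.Iio J).ncard : ℝ) ≤ J * Real.exp (-(c * √(Real.log J))) := by
  classical
  obtain ⟨c, s0, hfin⟩ := finite_thm2
  obtain ⟨a1, H1⟩ := eventually_atTop.1 (eventually_cond one_pos (c + 40) s0)
  obtain ⟨a2, H2⟩ := eventually_atTop.1 eventually_cond2
  obtain ⟨a0, ha1, ha2⟩ : ∃ a0, a1 ≤ a0 ∧ a2 ≤ a0 := ⟨max a1 a2, le_max_left _ _, le_max_right _ _⟩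
  have H : ∀ a, a0 ≤ a → Cond 1 (c + 40) s0 a := fun a h => H1 a (ha1.trans h)
  have H' : ∀ a, a0 ≤ a → Cond2 a := fun a h => H2 a (ha2.trans h)
  have h := ftow_inf H H'
  choose T T' B hT1 hT2 using exists_tops H hfin
  obtain ⟨A', A, hsub, hcov, hrep, hA0, hA', hgood, hwin⟩ := St.ftower h T T' B hT1
  have hu1 : ∀ k, 1 ≤ uS a0 k := by
    intro k
    have h1 := h.tow.eu k
    have h2 := h.tow.e300 k
    omega
  set C0 : ℝ := 4096 ^ 2 * 2592 * 2 ^ (4 * c) + 2 ^ 30 * 55 + 4 with hC0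
  have hC01 : 1 ≤ C0 := by
    have : (0 : ℝ) ≤ 4096 ^ 2 * 2592 * 2 ^ (4 * c) := by positivity
    linarith
  set C1 : ℝ := Real.log C0 + ((4 * c + 7 : ℕ) : ℝ) with hC1
  set C : ℝ := 4 * Cs * aS a0 0 + Cs + C1 with hC
  have hC1pos : 0 ≤ C1 := by
    have := Real.log_nonneg hC01
    positivity
  have hCs0 : (0 : ℝ) ≤ 4 * Cs * aS a0 0 := by positivity
  have hCs1 : (0 : ℝ) ≤ Cs := Nat.cast_nonneg _
  have key : ∀ (k : ℕ) (l : ℝ), ((aS a0 k : ℕ) : ℝ) ≤ l →
      ((4096 ^ 2 * 2592 * 2 ^ (c * (4 * sS a0 k)) + 2 * (4096 * (tS 1 a0 k * Dk (kS a0) k))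
      + 2 * tS 1 a0 k : ℕ) : ℝ) ≤ Real.exp (C * √(Real.log l)) := by
    intro k l hl
    have hc := H (aS a0 k) (a0_le a0 k)
    refine (rep_bound2 H k).trans ((abs_bound hC01 (4 * c + 7) hc.pos hc.one hl).trans ?_)
    apply Real.exp_le_exp.2
    exact mul_le_mul_of_nonneg_right (by linarith) (Real.sqrt_nonneg _)
  refine ⟨A', A, C, 1 / 2, by norm_num, hsub, hcov, ?_, ?_, ?_⟩
  · intro l n hl hn
    have hl1 : (1 : ℝ) ≤ l := by exact_mod_cast hl
    rcases lt_or_ge (zR (aS a0) (uS a0) 0) l with hz | hz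
    · have h1 := rep_le_of_tower h hrep hz hn
      have h2 : (rep A n : ℝ) ≤ Cs * l := by exact_mod_cast h1
      have h3 : 0 ≤ (4 * Cs * aS a0 0 + C1) * l := by positivity
      linarith [show C * l = Cs * l + (4 * Cs * aS a0 0 + C1) * l by rw [hC]; ring]
    · have h1 := hrep 0 n (lt_of_lt_of_le hn (Nat.pow_le_pow_right (by norm_num) hz))
      have h2 : (rep A n : ℝ) ≤ 4 * Cs * aS a0 0 := by exact_mod_cast h1
      have h3 : 4 * Cs * aS a0 0 * 1 ≤ 4 * Cs * aS a0 0 * (l : ℝ) :=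
        mul_le_mul_of_nonneg_left hl1 hCs0
      have h4 : 0 ≤ ((Cs : ℝ) + C1) * l := by positivity
      linarith [show C * l = 4 * Cs * aS a0 0 * (l : ℝ) + (Cs + C1) * l by rw [hC]; ring]
  · intro l n hl hn
    rcases lt_or_ge n (2 ^ (4 * aS a0 0 + thT (uS a0) (eS 1 a0) 0)) with h0 | h0
    · rw [hA0 n h0]
      have := Real.exp_pos (C * √(Real.log l))
      simpa using this.le
    · obtain ⟨k, hk1, hk2⟩ := exists_range (e := eS 1 a0) h.tow.step hu1 h0
      have h3 := hA' k n hk1 hk2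
      have h4 : 4 * aS a0 k + thT (uS a0) (eS 1 a0) k < l := by
        have h5 : 2 ^ (4 * aS a0 k + thT (uS a0) (eS 1 a0) k) < 2 ^ l := hk1.trans_lt hn
        exact (Nat.pow_lt_pow_iff_right (by norm_num)).1 h5
      have h6 : (aS a0 k : ℝ) ≤ l := by
        have : aS a0 k ≤ l := by omega
        exact_mod_cast this
      refine le_trans ?_ (key k l h6)
      exact_mod_cast h3.trans (Nat.le_add_right _ _)
  · refine ⟨{j | ¬ ∃ k, 4 * aS a0 k + thT (uS a0) (eS 1 a0) k + 128 * eS 1 a0 k ≤ j ∧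
      j + 1 ≤ zR (aS a0) (uS a0) (k + 1) ∧ ∀ i, i ≤ 5 → j - 4 * aS a0 k - i ∉ B k}, ?_, ?_⟩
    · intro j hj
      rw [Set.mem_ofPred_eq, not_not] at hj
      obtain ⟨k, hk1, hk2, hk3⟩ := hj
      obtain ⟨g1, g2⟩ := hgood k j hk1 hk2 hk3
      refine ⟨g1, ?_⟩
      intro n hn1 hn2
      have h6 : (aS a0 k : ℝ) ≤ j := by
        have : aS a0 k ≤ j := by omega
        exact_mod_cast this
      refine le_trans ?_ (key k j h6)
      exact_mod_cast g2 n hn1 hn2
    · -- the number of exceptional blocks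
      have hcast : Tendsto (fun a : ℕ => (a : ℝ)) atTop atTop := tendsto_natCast_atTop_atTop
      set D0 : ℝ := ((4 * aS a0 0 + thT (uS a0) (eS 1 a0) 0 + 128 * eS 1 a0 0 : ℕ) : ℝ) with hD0
      set D1 : ℝ := 84 * 2 ^ c + 601 with hD1
      have hev := hcast.eventually (final2 D0 (6 * D1) (Nat.cast_nonneg _) (by positivity))
      filter_upwards [hev, eventually_ge_atTop (4 * aS a0 0 + 1)] with J hJ hJ1
      have hex : ∃ N, J < 4 * aS a0 N := ⟨J, by have := le_aS H J; omega⟩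
      set N := Nat.find hex with hN
      have hN1 : J < 4 * aS a0 N := Nat.find_spec hex
      have hNpos : N ≠ 0 := by
        intro h
        rw [h] at hN1
        omega
      obtain ⟨K, hK⟩ := Nat.exists_eq_succ_of_ne_zero hNpos
      have hK1 : 4 * aS a0 K ≤ J := by
        have := Nat.find_min hex (m := K) (by omega)
        omega
      have hKs : ∀ k, 4 * aS a0 k ≤ J → k ∈ range N := by
        intro k hk
        rw [mem_range]
        by_contra hc
        push Not at hc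
        have := aS_mono a0 hc
        omega
      have hsubB : ({j | ¬ ∃ k, 4 * aS a0 k + thT (uS a0) (eS 1 a0) k + 128 * eS 1 a0 k ≤ j ∧
          j + 1 ≤ zR (aS a0) (uS a0) (k + 1) ∧ ∀ i, i ≤ 5 → j - 4 * aS a0 k - i ∉ B k}
          ∩ Set.Iio J : Set ℕ) ⊆ (badB (aS a0) (uS a0) (eS 1 a0) B J (range N) : Set ℕ) := by
        rintro j ⟨hj1, hj2⟩
        by_contra hc
        rw [Finset.mem_coe] at hc
        obtain ⟨k, -, g1, g2, g3⟩ := good_of_notMem h hKs hj2 hc
        exact hj1 ⟨k, g1, g2, g3⟩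
      have hcardB := Set.ncard_le_ncard hsubB (Finset.finite_toSet _)
      rw [Set.ncard_coe_finset] at hcardB
      have hbd := hcardB.trans (badB_card_le (aS a0) (uS a0) (eS 1 a0) B J (range N))
      have haK0 : (0 : ℝ) < ((aS a0 K : ℕ) : ℝ) := by
        exact_mod_cast (H (aS a0 K) (a0_le a0 K)).pos
      have hKJ : ((aS a0 K : ℕ) : ℝ) ≤ (J : ℝ) := by
        have : aS a0 K ≤ J := by omega
        exact_mod_cast this
      have hJa : a0 ≤ J := by
        have := a0_le a0 0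
        omega
      have hcJ := H J hJa
      have hJ0 : (0 : ℝ) < J := by exact_mod_cast hcJ.pos
      have hX1 : 1 ≤ X2 J := by
        have := Phi_le_X2 hJ0.le
        have := hcJ.hPhi
        linarith
      have hterm : ∀ k ∈ range N, ((6 * (B k).card + (192 * eS 1 a0 (k + 1) + 25) : ℕ) : ℝ)
          ≤ D1 * X2 J := by
        intro k hk
        rw [mem_range] at hk
        have hkK : aS a0 k ≤ aS a0 K := aS_mono a0 (by omega)
        have hkJ : ((aS a0 k : ℕ) : ℝ) ≤ (J : ℝ) := by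
          have : aS a0 k ≤ J := by omega
          exact_mod_cast this
        have hck := H (aS a0 k) (a0_le a0 k)
        have hk0 : (0 : ℝ) < ((aS a0 k : ℕ) : ℝ) := by exact_mod_cast hck.pos
        have h4 : 4 ≤ √(Real.log (aS a0 k)) := by
          have := hck.four
          linarith
        have hX := X2_mono hk0 (by linarith) hkJ
        have he := eS_succ_le H le_rfl k
        have hP := Phi_le_X2 hk0.le
        have hw := w_pos (aS a0 k)
        have hBk : ((B k).card : ℝ) ≤ 14 * 2 ^ c * X2 (aS a0 k) := by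
          have g1 : (((B k).card * 2 ^ (2 * sS a0 k) : ℕ) : ℝ) ≤ ((2 ^ c * laT (uS a0) k : ℕ) : ℝ) := by
            exact_mod_cast hT2 k
          push_cast at g1
          have g2 : (laT (uS a0) k : ℝ) ≤ 14 * (uS a0 k : ℝ) := by
            exact_mod_cast laT_le_u h.tow.uu k
          have g3 : (uS a0 k : ℝ) ≤ Psi (aS a0 k) := by
            apply Nat.floor_le
            have := hck.hPsi
            linarith
          have g4 : w (aS a0 k) ≤ (2 : ℝ) ^ (2 * sS a0 k) := w_le_two_pow (a := aS a0 k) (by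
            have := hck.pos
            omega)
          have g5 : X2 (aS a0 k) * w (aS a0 k) = Psi (aS a0 k) := by
            unfold X2 Psi
            field_simp
          have g6 : ((B k).card : ℝ) * w (aS a0 k) ≤ (14 * 2 ^ c * X2 (aS a0 k)) * w (aS a0 k) := by
            calc ((B k).card : ℝ) * w (aS a0 k) ≤ ((B k).card : ℝ) * 2 ^ (2 * sS a0 k) :=
                  mul_le_mul_of_nonneg_left g4 (Nat.cast_nonneg _)
              _ ≤ 2 ^ c * laT (uS a0) k := g1
              _ ≤ 2 ^ c * (14 * Psi (aS a0 k)) :=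
                  mul_le_mul_of_nonneg_left (by linarith) (by positivity)
              _ = (14 * 2 ^ c * X2 (aS a0 k)) * w (aS a0 k) := by rw [← g5]; ring
          exact le_of_mul_le_mul_right g6 hw
        have hc0 : (0 : ℝ) < 2 ^ c := by positivity
        have hBk' : ((B k).card : ℝ) ≤ 14 * 2 ^ c * X2 J :=
          hBk.trans (mul_le_mul_of_nonneg_left hX (by positivity))
        push_cast
        rw [hD1]
        have e : (84 * (2 : ℝ) ^ c + 601) * X2 J = 6 * (14 * 2 ^ c * X2 J) + 601 * X2 J := by ring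
        rw [e]
        linarith
      have hsum : ((∑ k ∈ range N, (6 * (B k).card + (192 * eS 1 a0 (k + 1) + 25)) : ℕ) : ℝ)
          ≤ (N : ℝ) * (D1 * X2 J) := by
        rw [Nat.cast_sum]
        have h1 := sum_le_card_nsmul (range N) _ _ hterm
        rw [card_range, nsmul_eq_mul] at h1
        exact h1
      have hNle : (N : ℝ) ≤ 6 * (w J * Real.log J) := by
        have h1 := index_le H h.tow K
        have h2 : (N : ℝ) = K + 1 := by rw [hK]; push_cast; ring
        have h3 : w (aS a0 K) ≤ w J := w_mono haK0 hKJ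
        have h4 : Real.log (aS a0 K) ≤ Real.log J := Real.log_le_log haK0 hKJ
        have h5 : 0 ≤ Real.log (aS a0 K) :=
          Real.log_nonneg (by exact_mod_cast (H (aS a0 K) (a0_le a0 K)).pos)
        have h6 : w (aS a0 K) * Real.log (aS a0 K) ≤ w J * Real.log J :=
          mul_le_mul h3 h4 h5 (w_pos _).le
        have h7 : 1 ≤ Real.log J := by
          have h8 := hcJ.one
          by_contra h9
          push Not at h9
          have h10 : √(Real.log J) < 1 := by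
            rw [Real.sqrt_lt' one_pos]
            simpa using h9
          linarith
        have h8 := one_le_w (J : ℝ)
        have h9 : 1 ≤ w J * Real.log J := by nlinarith
        rw [h2]
        linarith
      have hfinal : (((({j | ¬ ∃ k, 4 * aS a0 k + thT (uS a0) (eS 1 a0) k + 128 * eS 1 a0 k ≤ j ∧
          j + 1 ≤ zR (aS a0) (uS a0) (k + 1) ∧ ∀ i, i ≤ 5 → j - 4 * aS a0 k - i ∉ B k}
          ∩ Set.Iio J : Set ℕ)).ncard : ℕ) : ℝ) ≤ D0 + 6 * D1 * (w J * Real.log J) * X2 J := by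
        have h1 : (((({j | ¬ ∃ k, 4 * aS a0 k + thT (uS a0) (eS 1 a0) k + 128 * eS 1 a0 k ≤ j ∧
          j + 1 ≤ zR (aS a0) (uS a0) (k + 1) ∧ ∀ i, i ≤ 5 → j - 4 * aS a0 k - i ∉ B k}
          ∩ Set.Iio J : Set ℕ)).ncard : ℕ) : ℝ) ≤ D0 +
            ((∑ k ∈ range N, (6 * (B k).card + (192 * eS 1 a0 (k + 1) + 25)) : ℕ) : ℝ) := by
          rw [hD0]
          exact_mod_cast hbd
        have h2 : (N : ℝ) * (D1 * X2 J) ≤ 6 * (w J * Real.log J) * (D1 * X2 J) :=
          mul_le_mul_of_nonneg_right hNle (by positivity)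
        have h3 : 6 * (w J * Real.log J) * (D1 * X2 J) = 6 * D1 * (w J * Real.log J) * X2 J := by
          ring
        linarith
      exact hfinal.trans hJ

end Pool.Agent.Helper48.FB
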