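import Pool.Agent.Helper48.FB.St.Stubs
import Pool.Agent.Helper48.FB.LevSeq
import Pool.Agent.Helper48.WR.FinStep

/-!
# Project FB, D1, part 2: one level
-/

set_option autoImplicit false

namespace Pool.Agent.Helper48.FB

open Finset
open Pool.Agent.Helper53.WR
open Pool.Agent.Helper48.WR (aSq uSq eSq aSq_zero aSq_succ aSq_mono le_aSq aSq_add cut mem_cut
  repF_cut_le repF_cut_zero lt_of_aSq_le sum_u_le exists_range)

/-- The bound for the windows on the levels. -/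
def wL (s J : ℕ) : ℕ := J / 2 ^ (s + 2) + 100 * s

/-- The statement of one level. -/
def LevT (s F X J : ℕ) : Prop :=
  ∃ T T' B : Finset ℕ, Top J (Cs * (J + 1)) F (wL s J) T T' B ∧ B.card * 2 ^ s ≤ X * J ∧
    ∀ j ∈ B, j < J

lemma WinLe.mono {A : Finset ℕ} {W W' : ℕ} (h : WinLe A W) (hW : W ≤ W') : WinLe A W' :=
  fun y l => (h y l).trans (Nat.mul_le_mul_right _ hW)

lemma Top.mono {J F f f' w w' : ℕ} {T T' B : Finset ℕ} (h : Top J F f w T T' B) (hf : f ≤ f')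
    (hw : w ≤ w') : Top J F f' w' T T' B :=
  ⟨h.sub, h.lt, h.cov, h.rep, fun n => (h.rep' n).trans hf,
    h.wn.mono (Nat.pow_le_pow_right (by norm_num) hw),
    fun j hj hB => ⟨(h.good j hj hB).1, fun n h1 h2 => ((h.good j hj hB).2 n h1 h2).trans hf⟩⟩

lemma LevT.mono {s F F' X X' J : ℕ} (h : LevT s F X J) (hF : F ≤ F') (hX : X ≤ X') :
    LevT s F' X' J := by
  obtain ⟨T, T', B, h1, h2, h3⟩ := h
  exact ⟨T, T', B, h1.mono hF le_rfl, h2.trans (Nat.mul_le_mul_right _ hX), h3⟩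

lemma lev_base {s J : ℕ} (hs : 1 ≤ s) (hJ : 100 ≤ J) (hJ2 : J ≤ 2 ^ (8 * s)) :
    LevT s (Cs * (2 ^ (8 * s) + 1)) 0 J := by
  obtain ⟨T, hT⟩ := St.top_base J hJ
  have hT' : Top J (Cs * (J + 1)) (Cs * (2 ^ (8 * s) + 1)) (wL s J) T T ∅ := by
    refine hT.mono (Nat.mul_le_mul_left _ (by omega)) ?_
    have h1 : Nat.log 2 (16 * J) ≤ 4 + 8 * s := by
      have h2 : 16 * J < 2 ^ (4 + 8 * s + 1) := by
        rw [pow_succ, pow_add]
        have h3 : 0 < 2 ^ (8 * s) := by positivity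
        omega
      have h4 : 16 * J ≠ 0 := by omega
      have := Nat.log_lt_of_lt_pow h4 h2
      omega
    unfold wL
    generalize J / 2 ^ (s + 2) = y
    omega
  exact ⟨T, T, ∅, hT', by simp, by simp⟩

lemma zR_le {a u e t κ w : ℕ → ℕ} (h : FTow a u e t κ w) (k : ℕ) :
    4 * a k ≤ zR a u k := by
  have h1 := h.tow.e300 k
  have h2 := h.tow.eu k
  unfold zR
  omega

lemma exists_zR {a u e t κ w : ℕ → ℕ} (h : FTow a u e t κ w) {J : ℕ} (hJ : zR a u 0 < J) :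
    ∃ k, zR a u k < J ∧ J ≤ zR a u (k + 1) := by
  classical
  have hex : ∃ k, J ≤ zR a u (k + 1) := by
    refine ⟨J, ?_⟩
    have h1 := h.tow.le_a (J + 1)
    have h2 := zR_le h (J + 1)
    omega
  have h2 := Nat.find_spec hex
  refine ⟨Nat.find hex, ?_, h2⟩
  by_contra hcon
  push Not at hcon
  have h3 : Nat.find hex ≠ 0 := by
    intro h0
    rw [h0] at hcon
    omega
  have h4 := Nat.find_min hex (m := Nat.find hex - 1) (by omega)
  apply h4
  have h5 : Nat.find hex - 1 + 1 = Nat.find hex := by omega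
  rw [h5]
  exact hcon

/-- The bound `r ≤ Cs * J` below `2 ^ J`. -/
lemma rep_le_of_tower {a u e t κ w : ℕ → ℕ} (h : FTow a u e t κ w) {A : Set ℕ}
    (hA : ∀ k n, n < 2 ^ zR a u k → rep A n ≤ 4 * Cs * a k) {J n : ℕ} (hJ : zR a u 0 < J)
    (hn : n < 2 ^ J) : rep A n ≤ Cs * J := by
  obtain ⟨k, hk1, hk2⟩ := exists_zR h hJ
  have h1 := hA (k + 1) n (lt_of_lt_of_le hn (Nat.pow_le_pow_right (by norm_num) hk2))
  refine h1.trans ?_
  have h2 := h.tow.step k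
  have h3 := h.tow.e300 k
  have h4 := h.tow.eu k
  unfold zR at hk1
  calc 4 * Cs * a (k + 1) = Cs * (4 * a (k + 1)) := by ring
    _ ≤ Cs * J := Nat.mul_le_mul_left _ (by omega)

lemma exists_world {a u e t κ w : ℕ → ℕ} (h : FTow a u e t κ w) {j : ℕ}
    (hj : 4 * a 0 + thT u e 0 + 128 * e 0 ≤ j) :
    ∃ k, 4 * a k + thT u e k + 128 * e k ≤ j ∧
      j < 4 * a (k + 1) + thT u e (k + 1) + 128 * e (k + 1) := by
  classical
  have hex : ∃ k, j < 4 * a (k + 1) + thT u e (k + 1) + 128 * e (k + 1) := by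
    refine ⟨j, ?_⟩
    have h1 := h.tow.le_a (j + 1)
    omega
  have h2 := Nat.find_spec hex
  refine ⟨Nat.find hex, ?_, h2⟩
  by_contra hcon
  push Not at hcon
  have h3 : Nat.find hex ≠ 0 := by
    intro h0
    rw [h0] at hcon
    omega
  have h4 := Nat.find_min hex (m := Nat.find hex - 1) (by omega)
  apply h4
  have h5 : Nat.find hex - 1 + 1 = Nat.find hex := by omega
  rw [h5]
  exact hcon

/-- The exceptional blocks of a tower below `J`. -/
def badB (a u e : ℕ → ℕ) (B : ℕ → Finset ℕ) (J : ℕ) (Ks : Finset ℕ) : Finset ℕ :=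
  (range J).filter (fun j => j ∈ range (4 * a 0 + thT u e 0 + 128 * e 0) ∪ Ks.biUnion (fun k =>
      ((range 6).biUnion (fun i => (B k).image (fun t => t + 4 * a k + i))) ∪
        Ico (zR a u (k + 1)) (zR a u (k + 1) + (192 * e (k + 1) + 25))))

lemma badB_card_le (a u e : ℕ → ℕ) (B : ℕ → Finset ℕ) (J : ℕ) (Ks : Finset ℕ) :
    (badB a u e B J Ks).card ≤ 4 * a 0 + thT u e 0 + 128 * e 0 +
      ∑ k ∈ Ks, (6 * (B k).card + (192 * e (k + 1) + 25)) := by
  unfold badB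
  have hsub : ∀ (U : Finset ℕ), (range J).filter (fun j => j ∈ U) ⊆ U := by
    intro U j hj
    exact (mem_filter.1 hj).2
  refine le_trans (card_le_card (hsub _)) ?_
  refine le_trans (card_union_le _ _) ?_
  rw [card_range]
  refine Nat.add_le_add_left ?_ _
  refine le_trans card_biUnion_le ?_
  refine sum_le_sum fun k _ => ?_
  refine le_trans (card_union_le _ _) ?_
  rw [Nat.card_Ico, Nat.add_sub_cancel_left]
  refine Nat.add_le_add_right ?_ _
  refine le_trans card_biUnion_le ?_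
  refine le_trans (sum_le_card_nsmul _ _ (B k).card fun i _ => card_image_le) ?_
  rw [card_range, smul_eq_mul]

lemma good_of_notMem {a u e t κ w : ℕ → ℕ} (h : FTow a u e t κ w) {B : ℕ → Finset ℕ} {J : ℕ}
    {Ks : Finset ℕ} (hK : ∀ k, 4 * a k ≤ J → k ∈ Ks) {j : ℕ} (hjJ : j < J)
    (hj : j ∉ badB a u e B J Ks) : ∃ k, 4 * a k ≤ J ∧ 4 * a k + thT u e k + 128 * e k ≤ j ∧
      j + 1 ≤ zR a u (k + 1) ∧ ∀ i, i ≤ 5 → j - 4 * a k - i ∉ B k := by
  unfold badB at hj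
  rw [mem_filter, mem_range, not_and, mem_union, not_or, mem_range, mem_biUnion] at hj
  obtain ⟨hj1, hj2⟩ := hj hjJ
  push Not at hj1 hj2
  obtain ⟨k, hk1, hk2⟩ := exists_world h hj1
  have hkJ : 4 * a k ≤ J := by omega
  have h2 := hj2 k (hK k hkJ)
  rw [mem_union, not_or, mem_biUnion, mem_Ico, not_and] at h2
  obtain ⟨h3, h4⟩ := h2
  push Not at h3 h4
  have hstep : 4 * a (k + 1) + thT u e (k + 1) + 128 * e (k + 1)
      = zR a u (k + 1) + (192 * e (k + 1) + 24) := by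
    have g1 := h.tow.e300 (k + 1)
    have g2 := h.tow.eu (k + 1)
    unfold zR thT
    omega
  have h5 : j + 1 ≤ zR a u (k + 1) := by
    by_contra hc
    push Not at hc
    have := h4 (by omega)
    omega
  refine ⟨k, hkJ, hk1, h5, ?_⟩
  intro i hi hB
  have h6 := h3 i (mem_range.2 (by omega))
  apply h6
  rw [mem_image]
  refine ⟨j - 4 * a k - i, hB, ?_⟩
  have g1 := h.tow.e300 k
  omega

/-- The set `cut A J` for the union of a tower. -/
lemma top_of_tower {a u e t κ w f : ℕ → ℕ} (h : FTow a u e t κ w) {B : ℕ → Finset ℕ}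
    {A' A : Set ℕ} (hsub : A' ⊆ A) (hcov : ∀ n, ∃ x ∈ A, ∃ y ∈ A, x + y = n)
    (hrep : ∀ k n, n < 2 ^ zR a u k → rep A n ≤ 4 * Cs * a k)
    (hA0 : ∀ n, n < 2 ^ (4 * a 0 + thT u e 0) → rep A' n = 0)
    (hA' : ∀ k n, 2 ^ (4 * a k + thT u e k) ≤ n → n < 2 ^ (4 * a (k + 1) + thT u e (k + 1)) →
        rep A' n ≤ 4096 ^ 2 * 2592 * f k + 2 * (4096 * (t k * Dk κ k)))
    (hgood : ∀ k j, 4 * a k + thT u e k + 128 * e k ≤ j → j + 1 ≤ zR a u (k + 1) →
        (∀ i, i ≤ 5 → j - 4 * a k - i ∉ B k) → CovBlock A' j ∧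
          ∀ n, 2 ^ j ≤ n → n < 2 ^ (j + 1) →
            rep A n ≤ 4096 ^ 2 * 2592 * f k + 2 * (4096 * (t k * Dk κ k)) + 2 * t k)
    (hwin : ∀ k J, J ≤ zR a u (k + 1) → WinLe (cut A J) ((k + 2) * (2 * 2 ^ (13 * u (k + 1)))))
    {J F v : ℕ} (hJ : zR a u 0 < J) {Ks : Finset ℕ} (hK : ∀ k, 4 * a k ≤ J → k ∈ Ks)
    (hF : ∀ k, 4 * a k ≤ J → 4096 ^ 2 * 2592 * f k + 2 * (4096 * (t k * Dk κ k)) + 2 * t k ≤ F)
    (hv : ∀ k, 4 * a k ≤ J → (k + 2) * (2 * 2 ^ (13 * u (k + 1))) ≤ 2 ^ v) :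
    Top J (Cs * (J + 1)) F v (cut A J) (cut A' J) (badB a u e B J Ks) := by
  have hu1 : ∀ k, 1 ≤ u k := by
    intro k
    have h1 := h.tow.eu k
    have h2 := h.tow.e300 k
    omega
  have hcut : ∀ (X : Set ℕ) {j : ℕ}, j < J → CovBlock X j → CovBlock (cut X J : Set ℕ) j := by
    intro X j hj hX n h1 h2
    obtain ⟨x, hx, y, hy, hxy⟩ := hX n h1 h2
    have h3 : 2 ^ (j + 1) ≤ 2 ^ J := Nat.pow_le_pow_right (by norm_num) hj
    refine ⟨x, ?_, y, ?_, hxy⟩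
    · rw [Finset.mem_coe, mem_cut]
      exact ⟨by omega, hx⟩
    · rw [Finset.mem_coe, mem_cut]
      exact ⟨by omega, hy⟩
  refine ⟨?_, ?_, ?_, ?_, ?_, ?_, ?_⟩
  · intro x hx
    rw [mem_cut] at hx ⊢
    exact ⟨hx.1, hsub hx.2⟩
  · exact fun x hx => (mem_cut.1 hx).1
  · intro n hn
    obtain ⟨x, hx, y, hy, hxy⟩ := hcov n
    exact ⟨x, mem_cut.2 ⟨by omega, hx⟩, y, mem_cut.2 ⟨by omega, hy⟩, hxy⟩
  · intro n
    rcases lt_or_ge n (2 ^ (J + 1)) with hn | hn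
    · exact (repF_cut_le A J n).trans (rep_le_of_tower h hrep (by omega) hn)
    · rw [repF_cut_zero A hn]
      exact Nat.zero_le _
  · intro n
    rcases lt_or_ge n (2 ^ (J + 1)) with hn | hn
    swap
    · rw [repF_cut_zero A' hn]
      exact Nat.zero_le _
    refine (repF_cut_le A' J n).trans ?_
    rcases lt_or_ge n (2 ^ (4 * a 0 + thT u e 0)) with h0 | h0
    · rw [hA0 n h0]
      exact Nat.zero_le _
    obtain ⟨k, hk1, hk2⟩ := exists_range (e := e) h.tow.step hu1 h0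
    have hkJ : 4 * a k ≤ J := by
      have h1 : 2 ^ (4 * a k + thT u e k) < 2 ^ (J + 1) := lt_of_le_of_lt hk1 hn
      have h2 := (Nat.pow_lt_pow_iff_right (by norm_num)).1 h1
      omega
    have h3 := hF k hkJ
    exact (hA' k n hk1 hk2).trans (by omega)
  · obtain ⟨k, hk1, hk2⟩ := exists_zR h hJ
    have hkJ : 4 * a k ≤ J := by
      have := zR_le h k
      omega
    exact (hwin k J hk2).mono (hv k hkJ)
  · intro j hjJ hjB
    obtain ⟨k, hkJ, hk1, hk2, hk3⟩ := good_of_notMem h hK hjJ hjB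
    obtain ⟨g1, g2⟩ := hgood k j hk1 hk2 hk3
    refine ⟨hcut A' hjJ g1, ?_⟩
    intro n hn1 hn2
    exact (repF_cut_le A J n).trans ((g2 n hn1 hn2).trans (hF k hkJ))

end Pool.Agent.Helper48.FB
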