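import Pool.Agent.Helper48.FB.LevStep

/-!
# Project FB, D1, part 3: one level, numbers
-/

set_option autoImplicit false

namespace Pool.Agent.Helper48.FB

open Finset
open Pool.Agent.Helper53.WR
open Pool.Agent.Helper48.WR (aSq uSq eSq aSq_zero aSq_succ aSq_mono le_aSq aSq_add cut mem_cut
  repF_cut_le repF_cut_zero lt_of_aSq_le sum_u_le exists_range)

lemma sq_le_two_pow {s : ℕ} (hs : 100 ≤ s) : s ^ 2 ≤ 2 ^ s :=
  (Pool.Agent.Helper48.WR.num_facts hs).1

/-- One level. -/
theorem level_step2 {s F X J : ℕ} (hs : 200 ≤ s) (hJ0 : 2 ^ (8 * s) < J)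
    (hJ : J ≤ 2 ^ s ^ 2) (hT : ∀ L, 100 ≤ L → L * 2 ^ s ≤ J → LevT s F X L) :
    LevT s (2 ^ 36 * F + 2 ^ (6 * s)) (84 * X + 400) J := by
  classical
  have hs2 := sq_le_two_pow (show 100 ≤ s by omega)
  set K := 2 ^ (s + 5) with hK
  set E := s ^ 2 with hE
  set t := 2 ^ (2 * s + 6) with ht
  set b := 2 ^ (6 * s) with hb
  set N := 2 * K * s ^ 2 with hN
  have hEs : 200 * s ≤ E := by rw [hE, sq]; exact Nat.mul_le_mul_right _ hs
  have hK42 : 2 ^ 42 ≤ K := Nat.pow_le_pow_right (by norm_num) (by omega)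
  have hK0 : 0 < K := by positivity
  have ht0 : 0 < t := by positivity
  have hE300 : 300 ≤ E := by omega
  have htK : 400 * K ≤ t := by
    calc 400 * K ≤ 2 ^ 9 * 2 ^ (s + 5) := by rw [hK]; gcongr; norm_num
      _ = 2 ^ (9 + (s + 5)) := by rw [← pow_add]
      _ ≤ t := Nat.pow_le_pow_right (by norm_num) (by omega)
  have hEt : 2 ^ 70 * t ≤ 2 ^ E := by
    rw [ht, ← pow_add]
    exact Nat.pow_le_pow_right (by norm_num) (by omega)
  have hbE : 200 * K * (E + 2) ≤ b := by
    have h1 : E + 2 ≤ 2 ^ (s + 1) := by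
      have : 2 ≤ 2 ^ s := by
        calc 2 = 2 ^ 1 := by norm_num
          _ ≤ 2 ^ s := Nat.pow_le_pow_right (by norm_num) (by omega)
      rw [pow_succ]
      omega
    calc 200 * K * (E + 2) ≤ 2 ^ 8 * 2 ^ (s + 5) * 2 ^ (s + 1) := by
          rw [hK]; gcongr; norm_num
      _ = 2 ^ (8 + (s + 5) + (s + 1)) := by rw [← pow_add, ← pow_add]
      _ ≤ b := Nat.pow_le_pow_right (by norm_num) (by omega)
  have hbt : 2 ^ 31 * K * K * t ≤ b := by
    calc 2 ^ 31 * K * K * t = 2 ^ (31 + (s + 5) + (s + 5) + (2 * s + 6)) := by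
          rw [hK, ht, ← pow_add, ← pow_add, ← pow_add]
      _ ≤ b := Nat.pow_le_pow_right (by norm_num) (by omega)
  set a := aSq K b with ha
  set u := uSq K b with hu
  set e := eSq K b E t with he
  -- the windows
  let w : ℕ → ℕ := fun k => if 4 * a k ≤ J then wL s (laT u k)
    else Nat.log 2 (16 * laT u k) + 1
  have hTow0 := ftow_aSq (K := K) (E := E) (t := t) (b := b) hK42 hE300 htK hEt hbE hbt
    (fun _ => 0) (fun k => Nat.zero_le _)
  rw [← ha, ← hu, ← he] at hTow0
  have hu1 : ∀ k, 100 ≤ u k := by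
    intro k
    have h1 := hTow0.tow.eu k
    have h2 := hTow0.tow.e300 k
    omega
  have hua : ∀ k, u k ≤ a k := fun k => by have := hTow0.tow.ua k; omega
  have hla14 : ∀ k, laT u k ≤ 14 * u k := fun k => laT_le_u hTow0.tow.uu k
  have huK : ∀ k, u k * K ≤ a k := fun k => Nat.div_mul_le_self _ _
  have hw : ∀ k, w k ≤ 20 * e k := by
    intro k
    simp only [w]
    split_ifs with hk
    · have h1 : a k < t * (a k / t + 1) := Nat.lt_mul_div_succ _ ht0
      have h2 : e k = E + a k / t + 1 := rfl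
      rw [h2]
      set y := a k / t with hy
      have h3 : u k < 2 ^ (s + 1) * (y + 1) := by
        have h4 : u k * 2 ^ (s + 5) < 2 ^ (s + 1) * (y + 1) * 2 ^ (s + 5) := by
          calc u k * 2 ^ (s + 5) ≤ a k := huK k
            _ < t * (y + 1) := h1
            _ = 2 ^ (s + 1) * (y + 1) * 2 ^ (s + 5) := by
              rw [ht, show 2 * s + 6 = (s + 1) + (s + 5) by ring, pow_add 2 (s + 1)]
              ring
        exact lt_of_mul_lt_mul_right h4 (Nat.zero_le _)
      have h5 : laT u k / 2 ^ (s + 2) ≤ 7 * (y + 1) := by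
        rw [Nat.div_le_iff_le_mul_add_pred (by positivity)]
        have h6 : laT u k ≤ 14 * (2 ^ (s + 1) * (y + 1)) := by
          have := hla14 k
          omega
        have h7 : 14 * (2 ^ (s + 1) * (y + 1)) = 2 ^ (s + 2) * (7 * (y + 1)) := by
          rw [pow_succ 2 (s + 1)]
          ring
        omega
      unfold wL
      omega
    · have h1 : Nat.log 2 (16 * laT u k) < e k := by
        apply Nat.log_lt_of_lt_pow
        · have := hu1 k
          have : 0 < laT u k := by unfold laT; omega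
          omega
        · have h2 := hla14 k
          have h3 := hTow0.u42 k
          have h4 := hTow0.tow.h20 k
          have h5 := hu1 k
          omega
      have := hTow0.tow.e300 k
      omega
  have hTow := ftow_aSq (K := K) (E := E) (t := t) (b := b) hK42 hE300 htK hEt hbE hbt w hw
  rw [← ha, ← hu, ← he] at hTow
  -- the number of worlds
  have hbK : K ≤ b := Nat.pow_le_pow_right (by norm_num) (by omega)
  have hb1 : 1 ≤ b := Nat.one_le_two_pow
  have hworlds : ∀ k, 4 * a k ≤ J → k < N := by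
    intro k hk
    have hk4 : a k ≤ J / 4 := by
      rw [Nat.le_div_iff_mul_le (by norm_num)]
      omega
    refine lt_of_aSq_le (r := E) hK0 hbK ?_ hk4
    have h0 : 0 < 2 ^ (8 * s) := by positivity
    have h1 : J / 4 < J := Nat.div_lt_self (by omega) (by norm_num)
    have h2 : 2 ^ E * 1 ≤ 2 ^ E * b := Nat.mul_le_mul_left _ hb1
    omega
  -- the top sets
  have hla : ∀ k, 4 * a k ≤ J → laT u k * 2 ^ s ≤ J := by
    intro k hk
    have h2 := hla14 k
    have h3 := huK k
    have h4 : u k * 2 ^ s * 32 ≤ a k := by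
      calc u k * 2 ^ s * 32 = u k * K := by rw [hK, pow_add]; ring
        _ ≤ a k := h3
    calc laT u k * 2 ^ s ≤ 14 * u k * 2 ^ s := Nat.mul_le_mul_right _ h2
      _ = 14 * (u k * 2 ^ s) := by ring
      _ ≤ J := by omega
  have hla100 : ∀ k, 100 ≤ laT u k := by
    intro k
    have := hu1 k
    unfold laT
    omega
  let f : ℕ → ℕ := fun k => if 4 * a k ≤ J then F else Cs * (laT u k + 1)
  have hex : ∀ k, ∃ T T' B : Finset ℕ, Top (laT u k) (Fs u k) (f k) (w k) T T' B ∧
      (4 * a k ≤ J → B.card * 2 ^ s ≤ X * laT u k) := by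
    intro k
    by_cases hk : 4 * a k ≤ J
    · obtain ⟨T, T', B, h1, h2, h3⟩ := hT (laT u k) (hla100 k) (hla k hk)
      refine ⟨T, T', B, ?_, fun _ => h2⟩
      simp only [f, w]
      rw [if_pos hk, if_pos hk]
      exact h1
    · obtain ⟨T, hT⟩ := St.top_base (laT u k) (hla100 k)
      refine ⟨T, T, ∅, ?_, fun h => absurd h hk⟩
      simp only [f, w]
      rw [if_neg hk, if_neg hk]
      exact hT
  choose T T' B hT1 hT2 using hex
  obtain ⟨A', A, hsub, hcov, hrep, hA0, hA', hgood, hwin⟩ := St.ftower hTow T T' B hT1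
  set Ks := (range N).filter (fun k => 4 * a k ≤ J) with hKs
  have hKJ : ∀ k ∈ Ks, 4 * a k ≤ J := fun k hk => (mem_filter.1 hk).2
  have hKsN : ∀ k, 4 * a k ≤ J → k ∈ Ks := fun k hk => by
    rw [hKs, mem_filter, mem_range]; exact ⟨hworlds k hk, hk⟩
  have hcard : Ks.card ≤ N := by
    calc Ks.card ≤ (range N).card := card_filter_le _ _
      _ = N := card_range N
  have ha0 : a 0 = b := rfl
  have h7s : 5 * b * 2 ^ s ≤ 2 ^ (8 * s) := by
    calc 5 * b * 2 ^ s ≤ 2 ^ 3 * 2 ^ (6 * s) * 2 ^ s := by rw [hb]; gcongr; norm_num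
      _ = 2 ^ (3 + 6 * s + s) := by rw [← pow_add, ← pow_add]
      _ ≤ 2 ^ (8 * s) := Nat.pow_le_pow_right (by norm_num) (by omega)
  have h5b : 5 * b ≤ J := by
    have : 5 * b * 1 ≤ 5 * b * 2 ^ s := Nat.mul_le_mul_left _ Nat.one_le_two_pow
    omega
  have hzR0 : zR a u 0 < J := by
    have h1 := hTow.tow.ua 0
    have h2 := hu1 0
    unfold zR
    omega
  have hN2 : N ≤ 2 ^ (2 * s + 6) := by
    rw [hN]
    calc 2 * K * s ^ 2 ≤ 2 * K * 2 ^ s := Nat.mul_le_mul_left _ hs2
      _ = 2 ^ (1 + (s + 5) + s) := by rw [hK, pow_add 2 (1 + (s + 5)), pow_add 2 1, pow_one]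
      _ = 2 ^ (2 * s + 6) := by congr 1; ring
  have hTop := top_of_tower hTow (f := f) hsub hcov hrep hA0 hA' hgood hwin (J := J)
    (F := 2 ^ 36 * F + 2 ^ (6 * s)) (v := wL s J) hzR0 hKsN ?_ ?_
  · refine ⟨cut A J, cut A' J, badB a u e B J Ks, hTop, ?_, ?_⟩
    · have hcb := badB_card_le a u e B J Ks
      have hT0 : 4 * a 0 + thT u e 0 + 128 * e 0 ≤ 5 * b := by
        have h1 := hTow.tow.eu 0
        have h2 := hTow.tow.ua 0
        have h3 := hTow.tow.e300 0
        unfold thT
        omega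
      have hsumu := (sum_u_le hTow.tow.step hua J N).trans (min_le_right _ _)
      have hterm : ∀ k ∈ Ks, (6 * (B k).card + (192 * e (k + 1) + 25)) * 2 ^ s ≤
          (84 * X + 384) * u k + (192 * E + 217) * 2 ^ s := by
        intro k hk
        have h1 := hT2 k (hKJ k hk)
        have h2 := hla14 k
        have h3 : e (k + 1) = E + a (k + 1) / t + 1 := rfl
        have h4 : a (k + 1) / t * 2 ^ s ≤ 2 * u k := by
          have g1 : a k < K * (u k + 1) := Nat.lt_mul_div_succ _ hK0
          have g2 : a (k + 1) = a k + u k := hTow.tow.step k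
          have g3 : K * (u k + 1) ≤ K * (2 * u k) := Nat.mul_le_mul_left _ (by have := hu1 k; omega)
          have g4 : a (k + 1) ≤ 4 * (K * u k) := by
            have := hua k
            have g5 : K * (2 * u k) = 2 * (K * u k) := by ring
            omega
          have g6 : a (k + 1) / t * t ≤ a (k + 1) := Nat.div_mul_le_self _ _
          have g7 : a (k + 1) / t * 2 ^ s * 2 ^ (s + 6) ≤ 2 * u k * 2 ^ (s + 6) := by
            calc a (k + 1) / t * 2 ^ s * 2 ^ (s + 6) = a (k + 1) / t * t := by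
                  rw [ht, mul_assoc, ← pow_add]
                  congr 2
                  ring
              _ ≤ 4 * (K * u k) := g6.trans g4
              _ = 2 * u k * 2 ^ (s + 6) := by rw [hK, pow_succ 2 (s + 5)]; ring
          exact Nat.le_of_mul_le_mul_right g7 (by positivity)
        calc (6 * (B k).card + (192 * e (k + 1) + 25)) * 2 ^ s
            = 6 * ((B k).card * 2 ^ s) + 192 * (a (k + 1) / t * 2 ^ s) +
                (192 * E + 217) * 2 ^ s := by rw [h3]; ring
          _ ≤ 6 * (X * (14 * u k)) + 192 * (2 * u k) + (192 * E + 217) * 2 ^ s := by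
              have h5 : (B k).card * 2 ^ s ≤ X * (14 * u k) :=
                h1.trans (Nat.mul_le_mul_left _ h2)
              gcongr
          _ = (84 * X + 384) * u k + (192 * E + 217) * 2 ^ s := by ring
      have hsum : (∑ k ∈ Ks, (6 * (B k).card + (192 * e (k + 1) + 25))) * 2 ^ s ≤
          (84 * X + 384) * J + N * ((192 * E + 217) * 2 ^ s) := by
        rw [sum_mul]
        calc ∑ k ∈ Ks, (6 * (B k).card + (192 * e (k + 1) + 25)) * 2 ^ s
            ≤ ∑ k ∈ Ks, ((84 * X + 384) * u k + (192 * E + 217) * 2 ^ s) := sum_le_sum hterm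
          _ = (84 * X + 384) * ∑ k ∈ Ks, u k + Ks.card * ((192 * E + 217) * 2 ^ s) := by
              rw [sum_add_distrib, mul_sum, sum_const, smul_eq_mul]
          _ ≤ (84 * X + 384) * J + N * ((192 * E + 217) * 2 ^ s) := by gcongr
      have hNE : N * ((192 * E + 217) * 2 ^ s) ≤ J := by
        have h1 : 192 * E + 217 ≤ 2 ^ (s + 8) := by
          calc 192 * E + 217 ≤ 2 ^ 8 * E := by omega
            _ ≤ 2 ^ 8 * 2 ^ s := Nat.mul_le_mul_left _ hs2
            _ = 2 ^ (s + 8) := by rw [pow_add 2 s 8]; ring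
        calc N * ((192 * E + 217) * 2 ^ s) ≤ 2 ^ (2 * s + 6) * (2 ^ (s + 8) * 2 ^ s) := by gcongr
          _ = 2 ^ ((2 * s + 6) + ((s + 8) + s)) := by
              rw [pow_add 2 (2 * s + 6), pow_add 2 (s + 8)]
          _ ≤ 2 ^ (8 * s) := Nat.pow_le_pow_right (by norm_num) (by omega)
          _ ≤ J := hJ0.le
      calc (badB a u e B J Ks).card * 2 ^ s
          ≤ (5 * b + ∑ k ∈ Ks, (6 * (B k).card + (192 * e (k + 1) + 25))) * 2 ^ s :=
            Nat.mul_le_mul_right _ (by omega)
        _ = 5 * b * 2 ^ s + (∑ k ∈ Ks, (6 * (B k).card + (192 * e (k + 1) + 25))) * 2 ^ s := by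
            rw [add_mul]
        _ ≤ J + ((84 * X + 384) * J + J) := by omega
        _ ≤ (84 * X + 400) * J := by
            have : (84 * X + 400) * J = (84 * X + 384) * J + 16 * J := by ring
            omega
    · intro j hj
      unfold badB at hj
      exact mem_range.1 (mem_filter.1 hj).1
  · intro k hk
    have hkN := hworlds k hk
    simp only [f]
    rw [if_pos hk]
    have h1 : 4096 ^ 2 * 2592 * F ≤ 2 ^ 36 * F := Nat.mul_le_mul_right _ (by norm_num)
    have h2 : Dk (fun _ => 4 * K) k ≤ 2 ^ (3 * s + 29) := by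
      have g1 : Dk (fun _ => 4 * K) k = (k + 1) * (2 ^ 18 * K) := by
        unfold Dk
        ring
      rw [g1]
      calc (k + 1) * (2 ^ 18 * K) ≤ N * (2 ^ 18 * K) := Nat.mul_le_mul_right _ hkN
        _ ≤ 2 ^ (2 * s + 6) * (2 ^ 18 * K) := Nat.mul_le_mul_right _ hN2
        _ = 2 ^ ((2 * s + 6) + (18 + (s + 5))) := by
            rw [hK, pow_add 2 (2 * s + 6), pow_add 2 18]
        _ = 2 ^ (3 * s + 29) := by congr 1; ring
    have h3 : 2 * (4096 * (t * Dk (fun _ => 4 * K) k)) ≤ 2 ^ (5 * s + 48) := by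
      calc 2 * (4096 * (t * Dk (fun _ => 4 * K) k)) ≤ 2 * (4096 * (t * 2 ^ (3 * s + 29))) := by
            gcongr
        _ = 2 ^ (13 + (2 * s + 6) + (3 * s + 29)) := by
            rw [pow_add 2 (13 + (2 * s + 6)), pow_add 2 13, ht]
            ring
        _ = 2 ^ (5 * s + 48) := by congr 1; ring
    have h4 : 2 * t ≤ 2 ^ (5 * s + 48) := by
      calc 2 * t = 2 ^ (1 + (2 * s + 6)) := by rw [pow_add, pow_one]
        _ ≤ 2 ^ (5 * s + 48) := Nat.pow_le_pow_right (by norm_num) (by omega)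
    have h5 : 2 * 2 ^ (5 * s + 48) ≤ 2 ^ (6 * s) := by
      calc 2 * 2 ^ (5 * s + 48) = 2 ^ (5 * s + 49) := by rw [pow_succ 2 (5 * s + 48)]; ring
        _ ≤ 2 ^ (6 * s) := Nat.pow_le_pow_right (by norm_num) (by omega)
    show 4096 ^ 2 * 2592 * F + 2 * (4096 * (t * Dk (fun _ => 4 * K) k)) + 2 * t ≤ _
    omega
  · intro k hk
    have hkN := hworlds k hk
    have h1 : 13 * u (k + 1) ≤ J / 2 ^ (s + 2) := by
      rw [Nat.le_div_iff_mul_le (by positivity)]
      have g1 := huK (k + 1)
      have g2 : a (k + 1) = a k + u k := hTow.tow.step k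
      have g3 := hua k
      have g4 : u (k + 1) * K = 8 * (u (k + 1) * 2 ^ (s + 2)) := by
        rw [hK, show s + 5 = (s + 2) + 3 by ring, pow_add 2 (s + 2) 3]
        ring
      have g5 : 13 * u (k + 1) * 2 ^ (s + 2) = 13 * (u (k + 1) * 2 ^ (s + 2)) := by ring
      omega
    have h2 : (k + 2) * 2 ≤ 2 ^ (100 * s) := by
      calc (k + 2) * 2 ≤ (2 * 2 ^ (2 * s + 6)) * 2 := by
            have : 1 ≤ 2 ^ (2 * s + 6) := Nat.one_le_two_pow
            omega
        _ = 2 ^ (2 * s + 8) := by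
            rw [show 2 * s + 8 = (2 * s + 6) + 2 by ring, pow_add 2 (2 * s + 6) 2]
            ring
        _ ≤ 2 ^ (100 * s) := Nat.pow_le_pow_right (by norm_num) (by omega)
    unfold wL
    calc (k + 2) * (2 * 2 ^ (13 * u (k + 1))) = 2 ^ (13 * u (k + 1)) * ((k + 2) * 2) := by ring
      _ ≤ 2 ^ (J / 2 ^ (s + 2)) * 2 ^ (100 * s) :=
          Nat.mul_le_mul (Nat.pow_le_pow_right (by norm_num) h1) h2
      _ = _ := by rw [← pow_add]

end Pool.Agent.Helper48.FB
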