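import Pool.Agent.Helper48.FB.Infinite

/-!
# Project FB: the main theorem in terms of `log n`
-/

set_option autoImplicit false

namespace Pool.Agent.Helper48.FB

open Filter Finset
open Pool.Agent.Helper53.WR
open Pool.Agent.Helper63.WR2 (natlog_mul_log tendsto_sqrt_log)

/-- The number of `j < J` such that some `n` with `2 ^ j ≤ n < 2 ^ (j + 1)` is not a sum of two
elements of `A₀` or has more than `exp (C * √(log log n))` representations by `A`. -/
noncomputable def noisy (A₀ A : Set ℕ) (C : ℝ) (J : ℕ) : ℕ :=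
  ({j : ℕ | j < J ∧ ∃ n : ℕ, 2 ^ j ≤ n ∧ n < 2 ^ (j + 1) ∧
    ((∀ a ∈ A₀, ∀ b ∈ A₀, a + b ≠ n) ∨
      Real.exp (C * √(Real.log (Real.log n))) < (rep A n : ℝ))} : Set ℕ).ncard

lemma sqrt_two_mul_le (x : ℝ) : √(2 * x) ≤ 2 * √x := by
  rw [Real.sqrt_mul (by norm_num)]
  have h : √2 ≤ 2 := by
    rw [Real.sqrt_le_left (by norm_num)]
    norm_num
  exact mul_le_mul_of_nonneg_right h (Real.sqrt_nonneg _)

theorem main_thm : ∃ (A₀ A : Set ℕ) (C c : ℝ), 0 < c ∧ A₀ ⊆ A ∧
    (∀ n, ∃ a ∈ A, ∃ b ∈ A, a + b = n) ∧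
    (∀ n : ℕ, 2 ≤ n → (rep A n : ℝ) ≤ C * Real.log n) ∧
    (∀ᶠ n : ℕ in atTop, (rep A₀ n : ℝ) ≤ Real.exp (C * √(Real.log (Real.log n)))) ∧
    ∀ᶠ J : ℕ in atTop, (noisy A₀ A C J : ℝ) ≤ J * Real.exp (-(c * √(Real.log J))) := by
  classical
  obtain ⟨A', A, C, c, hc, hsub, hcov, h1, h2, Bad, h3, h4⟩ := infinite_thm2
  have hlog2 : (0.6931471803 : ℝ) < Real.log 2 := Real.log_two_gt_d9
  have hlog2' : Real.log 2 < 1 := by linarith [Real.log_two_lt_d9]
  have hCa : 0 ≤ |C| := abs_nonneg C
  have hCle : C ≤ |C| := le_abs_self C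
  have hll : Tendsto (fun n : ℕ => Real.log (Real.log n)) atTop atTop :=
    Real.tendsto_log_atTop.comp (Real.tendsto_log_atTop.comp tendsto_natCast_atTop_atTop)
  have hl : Tendsto (fun n : ℕ => Real.log n) atTop atTop :=
    Real.tendsto_log_atTop.comp tendsto_natCast_atTop_atTop
  refine ⟨A', A, 4 * |C|, c / 2, by positivity, hsub, hcov, ?_, ?_, ?_⟩
  · intro n hn
    have hn' : n < 2 ^ (Nat.log 2 n + 1) := Nat.lt_pow_succ_log_self (by norm_num) n
    have g1 := h1 (Nat.log 2 n + 1) n (by omega) hn'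
    have g2 := natlog_mul_log (a := n) (by omega)
    have g3 : 1 ≤ Nat.log 2 n := Nat.log_pos (by norm_num) (by omega)
    have g3' : (1 : ℝ) ≤ (Nat.log 2 n : ℝ) := by exact_mod_cast g3
    have g4 : ((Nat.log 2 n : ℝ) + 1) ≤ 4 * Real.log n := by nlinarith
    push_cast at g1
    calc (rep A n : ℝ) ≤ C * ((Nat.log 2 n : ℝ) + 1) := g1
      _ ≤ |C| * ((Nat.log 2 n : ℝ) + 1) := mul_le_mul_of_nonneg_right hCle (by positivity)
      _ ≤ |C| * (4 * Real.log n) := mul_le_mul_of_nonneg_left g4 hCa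
      _ = 4 * |C| * Real.log n := by ring
  · filter_upwards [hll.eventually_ge_atTop (Real.log 4), hl.eventually_ge_atTop 1,
      eventually_ge_atTop 2] with n g5 g6 hn
    have hn' : n < 2 ^ (Nat.log 2 n + 1) := Nat.lt_pow_succ_log_self (by norm_num) n
    have g3 : 1 ≤ Nat.log 2 n := Nat.log_pos (by norm_num) (by omega)
    have g1 := h2 (Nat.log 2 n + 1) n (by omega) hn'
    refine g1.trans (Real.exp_le_exp.2 ?_)
    have g2 := natlog_mul_log (a := n) (by omega)
    have g3' : (1 : ℝ) ≤ (Nat.log 2 n : ℝ) := by exact_mod_cast g3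
    have g4 : ((Nat.log 2 n : ℝ) + 1) ≤ 4 * Real.log n := by nlinarith
    have g7 : Real.log ((Nat.log 2 n : ℝ) + 1) ≤ 2 * Real.log (Real.log n) := by
      have e1 : Real.log ((Nat.log 2 n : ℝ) + 1) ≤ Real.log (4 * Real.log n) :=
        Real.log_le_log (by positivity) g4
      rw [Real.log_mul (by norm_num) (by linarith)] at e1
      linarith
    have g8 : √(Real.log ((Nat.log 2 n + 1 : ℕ) : ℝ)) ≤ 2 * √(Real.log (Real.log n)) := by
      push_cast
      exact (Real.sqrt_le_sqrt g7).trans (sqrt_two_mul_le _)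
    calc C * √(Real.log ((Nat.log 2 n + 1 : ℕ) : ℝ))
        ≤ |C| * √(Real.log ((Nat.log 2 n + 1 : ℕ) : ℝ)) :=
          mul_le_mul_of_nonneg_right hCle (Real.sqrt_nonneg _)
      _ ≤ |C| * (2 * √(Real.log (Real.log n))) := mul_le_mul_of_nonneg_left g8 hCa
      _ ≤ 4 * |C| * √(Real.log (Real.log n)) := by
          have := Real.sqrt_nonneg (Real.log (Real.log n))
          nlinarith [mul_nonneg hCa this]
  · have hJ : Tendsto (fun J : ℕ => √(Real.log (J : ℝ))) atTop atTop :=
      tendsto_sqrt_log.comp tendsto_natCast_atTop_atTop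
    filter_upwards [h4, hJ.eventually_ge_atTop (2 * (c / 2)⁻¹ + c + 4), eventually_ge_atTop 1]
      with J hJ1 hJ2 hJ3
    have hJ0 : (0 : ℝ) < J := by exact_mod_cast hJ3
    set y := √(Real.log (J : ℝ)) with hy
    have hsubset : ({j : ℕ | j < J ∧ ∃ n : ℕ, 2 ^ j ≤ n ∧ n < 2 ^ (j + 1) ∧
        ((∀ a ∈ A', ∀ b ∈ A', a + b ≠ n) ∨
        Real.exp (4 * |C| * √(Real.log (Real.log n))) < (rep A n : ℝ))} : Set ℕ)
        ⊆ (Bad ∩ Set.Iio J) ∪ ((range 3 : Finset ℕ) : Set ℕ) := by
      rintro j ⟨hj1, n, hn1, hn2, hn3⟩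
      by_contra hcon
      rw [Set.mem_union, not_or, Set.mem_inter_iff, not_and, Finset.mem_coe, mem_range,
        not_lt] at hcon
      obtain ⟨hcon1, hcon2⟩ := hcon
      have hjB : j ∉ Bad := fun h => hcon1 h hj1
      obtain ⟨k1, k2⟩ := h3 j hjB
      rcases hn3 with hn3 | hn3
      · obtain ⟨a, ha, b, hb, hab⟩ := k1 n hn1 hn2
        exact hn3 a ha b hb hab
      · have k3 := k2 n hn1 hn2
        have hn0 : (0 : ℝ) < n := by
          have : 0 < 2 ^ j := by positivity
          exact_mod_cast lt_of_lt_of_le this hn1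
        have k4 : (j : ℝ) * Real.log 2 ≤ Real.log n := by
          rw [← Real.log_pow]
          apply Real.log_le_log (by positivity)
          exact_mod_cast hn1
        have hj3 : (3 : ℝ) ≤ (j : ℝ) := by exact_mod_cast hcon2
        have k5 : 2 ≤ Real.log n := by nlinarith
        have k6 : Real.log j ≤ 2 * Real.log (Real.log n) := by
          have e1 : (j : ℝ) ≤ 2 * Real.log n := by nlinarith
          have e2 : Real.log j ≤ Real.log (2 * Real.log n) := Real.log_le_log (by linarith) e1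
          rw [Real.log_mul (by norm_num) (by linarith)] at e2
          have e3 : Real.log 2 ≤ Real.log (Real.log n) := Real.log_le_log (by norm_num) k5
          linarith
        have k7 : √(Real.log (j : ℝ)) ≤ 2 * √(Real.log (Real.log n)) :=
          (Real.sqrt_le_sqrt k6).trans (sqrt_two_mul_le _)
        have k8 : Real.exp (C * √(Real.log (j : ℝ)))
            ≤ Real.exp (4 * |C| * √(Real.log (Real.log n))) := by
          apply Real.exp_le_exp.2
          calc C * √(Real.log (j : ℝ)) ≤ |C| * √(Real.log (j : ℝ)) :=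
                mul_le_mul_of_nonneg_right hCle (Real.sqrt_nonneg _)
            _ ≤ |C| * (2 * √(Real.log (Real.log n))) := mul_le_mul_of_nonneg_left k7 hCa
            _ ≤ 4 * |C| * √(Real.log (Real.log n)) := by
                have := Real.sqrt_nonneg (Real.log (Real.log n))
                nlinarith [mul_nonneg hCa this]
        linarith
    have hfin : ((Bad ∩ Set.Iio J) ∪ ((range 3 : Finset ℕ) : Set ℕ)).Finite :=
      ((Set.finite_Iio J).inter_of_right _).union (Finset.finite_toSet _)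
    have k1 := Set.ncard_le_ncard hsubset hfin
    have k2 := Set.ncard_union_le (Bad ∩ Set.Iio J) ((range 3 : Finset ℕ) : Set ℕ)
    rw [Set.ncard_coe_finset, card_range] at k2
    have k3 : (noisy A' A (4 * |C|) J : ℝ) ≤ ((Bad ∩ Set.Iio J).ncard : ℝ) + 3 := by
      have : noisy A' A (4 * |C|) J ≤ (Bad ∩ Set.Iio J).ncard + 3 := k1.trans k2
      exact_mod_cast this
    refine k3.trans ?_
    have hlJ : 0 ≤ Real.log (J : ℝ) := Real.log_nonneg (by exact_mod_cast hJ3)
    have e1 : Real.log (J : ℝ) = y * y := (Real.mul_self_sqrt hlJ).symm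
    have e2 : (J : ℝ) = Real.exp (y * y) := by rw [← e1, Real.exp_log hJ0]
    have hinv : 0 < (c / 2)⁻¹ := by positivity
    have hy1 : 4 ≤ y := by linarith
    have e3 : (J : ℝ) * Real.exp (-(c * y)) ≤ (J : ℝ) * Real.exp (-(c / 2 * y)) / 2 := by
      have e4 : 2 * Real.exp (-(c * y)) ≤ Real.exp (-(c / 2 * y)) := by
        have e5 : (2 : ℝ) ≤ Real.exp (c / 2 * y) := by
          have e6 := Real.add_one_le_exp (c / 2 * y)
          have e7 : 2 ≤ c / 2 * y := by
            have : c / 2 * (2 * (c / 2)⁻¹) = 2 := by field_simp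
            have e8 : c / 2 * (2 * (c / 2)⁻¹) ≤ c / 2 * y :=
              mul_le_mul_of_nonneg_left (by linarith) (by positivity)
            linarith
          linarith
        calc 2 * Real.exp (-(c * y)) ≤ Real.exp (c / 2 * y) * Real.exp (-(c * y)) :=
              mul_le_mul_of_nonneg_right e5 (Real.exp_pos _).le
          _ = Real.exp (-(c / 2 * y)) := by
              rw [← Real.exp_add]
              congr 1
              ring
      have := mul_le_mul_of_nonneg_left e4 hJ0.le
      linarith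
    have e9 : 3 ≤ (J : ℝ) * Real.exp (-(c / 2 * y)) / 2 := by
      rw [e2, ← Real.exp_add]
      have e10 := Real.add_one_le_exp (y * y + -(c / 2 * y))
      have e11 : 6 ≤ y * y + -(c / 2 * y) + 1 := by nlinarith
      linarith
    have e12 : ((Bad ∩ Set.Iio J).ncard : ℝ) ≤ J * Real.exp (-(c * y)) := hJ1
    linarith

end Pool.Agent.Helper48.FB
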